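import Pool.Agent.Helper94_ABA.Step2

/-! # The amalgam lemma for `Monoid.PushoutI` (MP_d857f1_al, section 7)

`Y = X *_C M` for injective `f : C →* X` and `g : C →* M`, `M` commutative without involution. -/

set_option autoImplicit false

namespace Pool.Agent.ABA.AM

open Monoid Monoid.PushoutI

universe u

section general

variable {C : Type*} [Group C] {G : Bool → Type*} [∀ b, Group (G b)] {φ : ∀ b, C →* G b}

/-- The factors of the amalgam. -/
noncomputable def Fac' (φ : ∀ b, C →* G b) (b : Bool) : Subgroup (PushoutI φ) :=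
  (PushoutI.of (φ := φ) b).range

theorem rw_word {n : ℕ} {s t : Bool} {y : PushoutI φ} (h : RW (Fac' φ) n s t y) :
    ∃ w : CoprodI.Word G, Reduced φ w ∧ PushoutI.ofCoprodI (φ := φ) w.prod = y ∧
      w.fstIdx = some s := by
  induction h with
  | one b x hx hx' =>
    obtain ⟨g, rfl⟩ := hx
    have hg : g ∉ (φ b).range := by
      rintro ⟨c, rfl⟩
      apply hx'
      rw [of_apply_eq_base]
      exact ⟨φ (!b) c, of_apply_eq_base φ (!b) c⟩
    have hg1 : g ≠ 1 := fun h => hg (h ▸ one_mem _)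
    have h0 : (CoprodI.Word.empty (M := G)).fstIdx ≠ some b := by
      simp [CoprodI.Word.fstIdx, CoprodI.Word.empty]
    refine ⟨CoprodI.Word.cons g CoprodI.Word.empty h0 hg1, ?_, ?_,
      CoprodI.Word.fstIdx_cons _ _ _ _⟩
    · intro l hl
      have hl' : l = ⟨b, g⟩ := by
        simpa [CoprodI.Word.cons, CoprodI.Word.empty] using hl
      rw [hl']
      exact hg
    · rw [CoprodI.Word.prod_cons, CoprodI.Word.prod_empty, mul_one, ofCoprodI_of]
  | cons n b t x y hx hx' _ ih =>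
    obtain ⟨w, h1, h2, h3⟩ := ih
    obtain ⟨g, rfl⟩ := hx
    have hg : g ∉ (φ b).range := by
      rintro ⟨c, rfl⟩
      apply hx'
      rw [of_apply_eq_base]
      exact ⟨φ (!b) c, of_apply_eq_base φ (!b) c⟩
    have hg1 : g ≠ 1 := fun h => hg (h ▸ one_mem _)
    have hne : w.fstIdx ≠ some b := by
      rw [h3]
      cases b <;> simp
    refine ⟨CoprodI.Word.cons g w hne hg1, ?_, ?_, CoprodI.Word.fstIdx_cons _ _ _ _⟩
    · intro l hl
      have hl' : l = ⟨b, g⟩ ∨ l ∈ w.toList := by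
        simpa [CoprodI.Word.cons] using hl
      rcases hl' with hl' | hl'
      · rw [hl']
        exact hg
      · exact h1 l hl'
    · rw [CoprodI.Word.prod_cons, map_mul, ofCoprodI_of, h2]

/-- Mathlib's amalgam is an amalgam. -/
theorem amal_pushout (hφ : ∀ b, Function.Injective (φ b)) : Amal (Fac' φ) where
  ne_one := by
    intro n s t y h h1
    obtain ⟨w, hw, hw2, hw3⟩ := rw_word h
    have h2 := Reduced.eq_empty_of_mem_range hφ hw (by
      rw [hw2, h1]
      exact one_mem _)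
    rw [h2] at hw3
    simp [CoprodI.Word.fstIdx, CoprodI.Word.empty] at hw3
  gen := by
    rw [eq_top_iff]
    intro y _
    induction y using PushoutI.induction_on with
    | of b g =>
      cases b
      · exact Subgroup.mem_sup_right ⟨g, rfl⟩
      · exact Subgroup.mem_sup_left ⟨g, rfl⟩
    | base h =>
      rw [← of_apply_eq_base φ true h]
      exact Subgroup.mem_sup_left ⟨_, rfl⟩
    | mul x y hx hy => exact mul_mem (hx (Subgroup.mem_top x)) (hy (Subgroup.mem_top y))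

theorem fac_inf (hφ : ∀ b, Function.Injective (φ b)) :
    Fac' φ true ⊓ Fac' φ false = (φ true).range.map (PushoutI.of (φ := φ) true) := by
  rw [Fac', Fac', inf_of_range_eq_base_range hφ (by decide), ← MonoidHom.range_comp,
    of_comp_eq_base]

end general

/-- The geometric class is transported by injective homomorphisms. -/
theorem geoIn_map {X Y : Type*} [Group X] [Group Y] (ι : X →* Y) (hι : Function.Injective ι)
    {A B : Subgroup X} (hg : Geo A B) : GeoIn ι.range (A.map ι) (B.map ι) := by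
  have m1 : ∀ {H : Subgroup X} {x : X}, ι x ∈ H.map ι → x ∈ H := by
    rintro H x ⟨y, hy, e⟩
    rw [← hι e]
    exact hy
  have n1 : ∀ {x : X}, ι x ≠ 1 → x ≠ 1 := by
    intro x h h'
    exact h (by rw [h', map_one])
  refine ⟨?_, ?_, ?_, ?_, ?_, ?_, ?_, ?_, ?_⟩
  · rintro _ ⟨x, hx, rfl⟩ hx'
    rw [hg.ab x hx (m1 hx'), map_one]
  · rintro _ ⟨h, rfl⟩ _ ⟨x, hx, rfl⟩ hh hne
    rw [← map_inv, ← map_mul, ← map_mul] at hh
    exact ⟨h, hg.aa h x hx (m1 hh) (n1 hne), rfl⟩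
  · rintro _ ⟨h, rfl⟩ _ ⟨x, hx, rfl⟩ hh hne
    rw [← map_inv, ← map_mul, ← map_mul] at hh
    exact ⟨h, hg.bb h x hx (m1 hh) (n1 hne), rfl⟩
  · rintro _ ⟨h, rfl⟩ _ ⟨x, hx, rfl⟩ hh
    rw [← map_inv, ← map_mul, ← map_mul] at hh
    rw [hg.ab' h x hx (m1 hh), map_one]
  · rintro _ ⟨x, hx, rfl⟩ _ ⟨y, hy, rfl⟩ _ ⟨x', hx', rfl⟩ _ ⟨y', hy', rfl⟩ a b c d h
    rw [← map_mul, ← map_mul, ← map_mul, ← map_one ι] at h
    exact hg.e1 x hx y hy x' hx' y' hy' (n1 a) (n1 b) (n1 c) (n1 d) (hι h)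
  · rintro _ ⟨h₁, rfl⟩ _ ⟨h₂, rfl⟩ _ ⟨h₃, rfl⟩ _ ⟨x₁, m₁, rfl⟩ _ ⟨x₂, m₂, rfl⟩ _ ⟨x₃, m₃, rfl⟩
      a b c d₁ d₂ d₃ h
    have d : ∀ {p q : X}, (ι p)⁻¹ * ι q ∉ A.map ι → p⁻¹ * q ∉ A := by
      intro p q h h'
      apply h
      rw [← map_inv, ← map_mul]
      exact ⟨_, h', rfl⟩
    simp only [← map_inv, ← map_mul] at h
    rw [← map_one ι] at h
    exact hg.r3 h₁ h₂ h₃ x₁ x₂ x₃ m₁ m₂ m₃ (n1 a) (n1 b) (n1 c) (d d₁) (d d₂) (d d₃) (hι h)
  · rintro _ ⟨h, rfl⟩ hh
    rw [← map_mul, ← map_one ι] at hh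
    rw [hg.t2 h (hι hh), map_one]
  · rintro _ ⟨h, rfl⟩ hn
    rintro _ ⟨x₁, a₁, rfl⟩ _ ⟨y₁, b₁, rfl⟩ _ ⟨x₂, a₂, rfl⟩ _ ⟨y₂, b₂, rfl⟩ _ ⟨x₃, a₃, rfl⟩
      _ ⟨y₃, b₃, rfl⟩ c₁ c₂ c₃ c₄ c₅ c₆ hh
    simp only [← map_inv, ← map_mul] at hh
    rw [← map_one ι] at hh
    refine hg.e6 h ?_ x₁ a₁ y₁ b₁ x₂ a₂ y₂ b₂ x₃ a₃ y₃ b₃ (n1 c₁) (n1 c₂) (n1 c₃) (n1 c₄)
      (n1 c₅) (n1 c₆) (hι hh)
    rintro ⟨x, hx, y, hy, z, hz, e⟩
    exact hn ⟨ι x, ⟨x, hx, rfl⟩, ι y, ⟨y, hy, rfl⟩, ι z, ⟨z, hz, rfl⟩, by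
      rw [e, map_mul, map_mul]⟩
  · rintro _ ⟨k, rfl⟩ _ ⟨s, hs, rfl⟩ _ ⟨t, ht, rfl⟩ a b h
    rw [← map_inv, ← map_mul, ← map_mul, ← map_mul] at h
    exact hg.el k s hs t ht (n1 a) (n1 b) (hι h)

section concrete

variable {X M C : Type u} [Group X] [Group M] [Group C]

/-- The two legs. -/
def Leg (X M : Type u) : Bool → Type u
  | true => X
  | false => M

instance (X M : Type u) [Group X] [Group M] (b : Bool) : Group (Leg X M b) :=
  match b with
  | true => inferInstanceAs (Group X)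
  | false => inferInstanceAs (Group M)

/-- The two embeddings of `C`. -/
def legs (f : C →* X) (g : C →* M) : ∀ b : Bool, C →* Leg X M b
  | true => f
  | false => g

/-- The amalgam `X *_C M`. -/
abbrev Push (f : C →* X) (g : C →* M) : Type u := PushoutI (legs f g)

/-- The embedding of `X`. -/
noncomputable def inX (f : C →* X) (g : C →* M) : X →* Push f g :=
  PushoutI.of (φ := legs f g) true

/-- The embedding of `M`. -/
noncomputable def inM (f : C →* X) (g : C →* M) : M →* Push f g :=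
  PushoutI.of (φ := legs f g) false

theorem legs_inj {f : C →* X} {g : C →* M} (hf : Function.Injective f)
    (hg : Function.Injective g) : ∀ b, Function.Injective (legs f g b)
  | true => hf
  | false => hg

theorem inX_injective {f : C →* X} {g : C →* M} (hf : Function.Injective f)
    (hg : Function.Injective g) : Function.Injective (inX f g) :=
  PushoutI.of_injective (legs_inj hf hg) true

theorem inM_injective {f : C →* X} {g : C →* M} (hf : Function.Injective f)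
    (hg : Function.Injective g) : Function.Injective (inM f g) :=
  PushoutI.of_injective (legs_inj hf hg) false

theorem inX_inM (f : C →* X) (g : C →* M) (c : C) : inX f g (f c) = inM f g (g c) := by
  have h1 : inX f g (f c) = PushoutI.base (legs f g) c := of_apply_eq_base (legs f g) true c
  have h2 : inM f g (g c) = PushoutI.base (legs f g) c := of_apply_eq_base (legs f g) false c
  rw [h1, h2]

/-- The universal property. -/
noncomputable def pushLift {K : Type*} [Group K] {f : C →* X} {g : C →* M} (p : X →* K)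
    (q : M →* K) (h : ∀ c, p (f c) = q (g c)) : Push f g →* K :=
  PushoutI.lift (fun b => match b with
    | true => p
    | false => q) (p.comp f) (fun b => match b with
    | true => rfl
    | false => MonoidHom.ext fun c => (h c).symm)

theorem pushLift_inX {K : Type*} [Group K] {f : C →* X} {g : C →* M} (p : X →* K)
    (q : M →* K) (h : ∀ c, p (f c) = q (g c)) (x : X) : pushLift p q h (inX f g x) = p x :=
  PushoutI.lift_of _ _ _ _

theorem pushLift_inM {K : Type*} [Group K] {f : C →* X} {g : C →* M} (p : X →* K)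
    (q : M →* K) (h : ∀ c, p (f c) = q (g c)) (x : M) : pushLift p q h (inM f g x) = q x :=
  PushoutI.lift_of _ _ _ _

theorem push_amal {f : C →* X} {g : C →* M} (hf : Function.Injective f)
    (hg : Function.Injective g) : Amal (Fac' (legs f g)) :=
  amal_pushout (legs_inj hf hg)

theorem push_inf {f : C →* X} {g : C →* M} (hf : Function.Injective f)
    (hg : Function.Injective g) :
    Fac' (legs f g) true ⊓ Fac' (legs f g) false = f.range.map (inX f g) :=
  fac_inf (legs_inj hf hg)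

/-- **Amalgam lemma, step 1**: `A = f(C)` is enlarged to `M`. -/
theorem am1 {f : C →* X} {g : C →* M} (hf : Function.Injective f)
    (hg : Function.Injective g) (hcomm : ∀ x y : M, x * y = y * x)
    (htf : ∀ x : M, x * x = 1 → x = 1) (B : Subgroup X) (hgeo : Geo f.range B) :
    Geo (inM f g).range (B.map (inX f g)) := by
  have h1 := geoIn_map (inX f g) (inX_injective hf hg) hgeo
  refine step1 (push_amal hf hg) (B.map (inX f g)) ?_ ?_ ?_ ?_
  · rintro _ ⟨x, _, rfl⟩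
    exact ⟨x, rfl⟩
  · rintro _ ⟨x, rfl⟩ _ ⟨y, rfl⟩
    rw [← map_mul, ← map_mul]
    exact congrArg _ (hcomm x y)
  · intro y hy hyy
    obtain ⟨x, rfl⟩ : ∃ x : M, inM f g x = y := hy
    have h2 : inM f g (x * x) = inM f g 1 := by
      rw [map_mul, map_one]
      exact hyy
    have h3 : x = 1 := htf x (inM_injective hf hg h2)
    rw [h3, map_one]
  · rw [push_inf hf hg]
    exact h1

/-- **Amalgam lemma, step 2**: `B = f(C)` is enlarged to `M`. -/
theorem am2 {f : C →* X} {g : C →* M} (hf : Function.Injective f)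
    (hg : Function.Injective g) (hcomm : ∀ x y : M, x * y = y * x)
    (htf : ∀ x : M, x * x = 1 → x = 1) (A : Subgroup X) (hgeo : Geo A f.range) :
    Geo (A.map (inX f g)) (inM f g).range := by
  have h1 := geoIn_map (inX f g) (inX_injective hf hg) hgeo
  refine step2 (push_amal hf hg) (A.map (inX f g)) ?_ ?_ ?_ ?_
  · rintro _ ⟨x, _, rfl⟩
    exact ⟨x, rfl⟩
  · rintro _ ⟨x, rfl⟩ _ ⟨y, rfl⟩
    rw [← map_mul, ← map_mul]
    exact congrArg _ (hcomm x y)
  · intro y hy hyy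
    obtain ⟨x, rfl⟩ : ∃ x : M, inM f g x = y := hy
    have h2 : inM f g (x * x) = inM f g 1 := by
      rw [map_mul, map_one]
      exact hyy
    have h3 : x = 1 := htf x (inM_injective hf hg h2)
    rw [h3, map_one]
  · rw [push_inf hf hg]
    exact h1

/-- Pull back along an injective homomorphism. -/
theorem geo_comap {H K : Type*} [Group H] [Group K] (ι : H →* K) (hι : Function.Injective ι)
    {A B : Subgroup H} {A' B' : Subgroup K} (hA : A.map ι = A') (hB : B.map ι = B')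
    (hg : Geo A' B') : Geo A B := by
  subst hA
  subst hB
  have m1 : ∀ {H' : Subgroup H} {x : H}, ι x ∈ H'.map ι → x ∈ H' := by
    rintro H' x ⟨y, hy, e⟩
    rw [← hι e]
    exact hy
  have m2 : ∀ {H' : Subgroup H} {x : H}, x ∈ H' → ι x ∈ H'.map ι := fun hx => ⟨_, hx, rfl⟩
  have n1 : ∀ {x : H}, x ≠ 1 → ι x ≠ 1 := by
    intro x h h'
    exact h (hι (by rw [h', map_one]))
  have e1 : ∀ {x : H}, ι x = 1 → x = 1 := fun h => hι (by rw [h, map_one])
  refine ⟨?_, ?_, ?_, ?_, ?_, ?_, ?_, ?_, ?_⟩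
  · intro x hx hx'
    exact e1 (hg.ab _ (m2 hx) (m2 hx'))
  · intro h x hx hh hne
    exact m1 (hg.aa (ι h) (ι x) (m2 hx) (by
      rw [← map_inv, ← map_mul, ← map_mul]
      exact m2 hh) (n1 hne))
  · intro h x hx hh hne
    exact m1 (hg.bb (ι h) (ι x) (m2 hx) (by
      rw [← map_inv, ← map_mul, ← map_mul]
      exact m2 hh) (n1 hne))
  · intro h x hx hh
    exact e1 (hg.ab' (ι h) (ι x) (m2 hx) (by
      rw [← map_inv, ← map_mul, ← map_mul]
      exact m2 hh))
  · intro x hx y hy x' hx' y' hy' a b c d h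
    apply hg.e1 _ (m2 hx) _ (m2 hy) _ (m2 hx') _ (m2 hy') (n1 a) (n1 b) (n1 c) (n1 d)
    rw [← map_mul, ← map_mul, ← map_mul, h, map_one]
  · intro h₁ h₂ h₃ x₁ x₂ x₃ m₁ m₂ m₃ a b c d₁ d₂ d₃ h
    have d : ∀ {p q : H}, p⁻¹ * q ∉ A → (ι p)⁻¹ * ι q ∉ A.map ι := by
      intro p q h h'
      rw [← map_inv, ← map_mul] at h'
      exact h (m1 h')
    apply hg.r3 (ι h₁) (ι h₂) (ι h₃) _ _ _ (m2 m₁) (m2 m₂) (m2 m₃) (n1 a) (n1 b) (n1 c) (d d₁)
      (d d₂) (d d₃)
    simp only [← map_inv, ← map_mul]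
    rw [h, map_one]
  · intro h hh
    apply e1
    apply hg.t2
    rw [← map_mul, hh, map_one]
  · intro h hn x₁ a₁ y₁ b₁ x₂ a₂ y₂ b₂ x₃ a₃ y₃ b₃ c₁ c₂ c₃ c₄ c₅ c₆ hh
    refine hg.e6 (ι h) ?_ _ (m2 a₁) _ (m2 b₁) _ (m2 a₂) _ (m2 b₂) _ (m2 a₃) _ (m2 b₃) (n1 c₁)
      (n1 c₂) (n1 c₃) (n1 c₄) (n1 c₅) (n1 c₆) ?_
    · rintro ⟨_, ⟨x, hx, rfl⟩, _, ⟨y, hy, rfl⟩, _, ⟨z, hz, rfl⟩, e⟩
      exact hn ⟨x, hx, y, hy, z, hz, hι (by rw [e, map_mul, map_mul])⟩
    · simp only [← map_inv, ← map_mul]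
      rw [hh, map_one]
  · intro k s hs t ht a b h
    apply hg.el (ι k) _ (m2 hs) _ (m2 ht) (n1 a) (n1 b)
    rw [← map_inv, ← map_mul, ← map_mul, ← map_mul, h]

end concrete

end Pool.Agent.ABA.AM
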