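import Mathlib

/-! # Amalgams inside a group: reduced words (MP_d857f1_al, section 7) -/

set_option autoImplicit false

namespace Pool.Agent.ABA.AM

variable {Y : Type*} [Group Y]

/-- `RW F n s t y`: the element `y` is a product of `n` letters, alternately in `F b` and not in
`F (!b)`; the first letter is of type `s` and the last one of type `t`. -/
inductive RW (F : Bool → Subgroup Y) : ℕ → Bool → Bool → Y → Prop
  | one (b : Bool) (x : Y) (hx : x ∈ F b) (hx' : x ∉ F (!b)) : RW F 1 b b x
  | cons (n : ℕ) (b t : Bool) (x y : Y) (hx : x ∈ F b) (hx' : x ∉ F (!b))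
      (hy : RW F n (!b) t y) : RW F (n + 1) b t (x * y)

/-- `Y` is the amalgam of `F true` and `F false` over their intersection. -/
structure Amal (F : Bool → Subgroup Y) : Prop where
  ne_one : ∀ (n : ℕ) (s t : Bool) (y : Y), RW F n s t y → y ≠ 1
  gen : F true ⊔ F false = ⊤

variable {F : Bool → Subgroup Y}

theorem mem_mul_left {H : Subgroup Y} {x y : Y} (hx : x ∈ H) (h : x * y ∈ H) : y ∈ H :=
  (H.mul_mem_cancel_left hx).mp h

theorem mem_mul_right {H : Subgroup Y} {x y : Y} (hx : x ∈ H) (h : y * x ∈ H) : y ∈ H :=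
  (H.mul_mem_cancel_right hx).mp h

theorem RW.pos {n : ℕ} {s t : Bool} {y : Y} (h : RW F n s t y) : 1 ≤ n := by
  cases h <;> omega

theorem RW.first {n : ℕ} {s t : Bool} {y : Y} (h : RW F n s t y) :
    ∃ x y', y = x * y' ∧ x ∈ F s ∧ x ∉ F (!s) ∧
      ((n = 1 ∧ y' = 1 ∧ s = t) ∨ ∃ m, n = m + 1 ∧ RW F m (!s) t y') := by
  cases h with
  | one b x hx hx' => exact ⟨y, 1, (mul_one y).symm, hx, hx', Or.inl ⟨rfl, rfl, rfl⟩⟩
  | cons n b t x z hx hx' hz => exact ⟨x, z, rfl, hx, hx', Or.inr ⟨n, rfl, hz⟩⟩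

theorem RW.append {n m : ℕ} {s t u : Bool} {y z : Y} (h : RW F n s t y)
    (h' : RW F m (!t) u z) : RW F (n + m) s u (y * z) := by
  induction h with
  | one b x hx hx' =>
    rw [Nat.add_comm]
    exact RW.cons m b u x z hx hx' h'
  | cons n b t x y hx hx' hy ih =>
    have h1 := ih h'
    rw [mul_assoc, Nat.add_right_comm]
    exact RW.cons (n + m) b u x (y * z) hx hx' h1

/-- The type of the next letter given explicitly. -/
theorem RW.append' {n m : ℕ} {s t t' u : Bool} {y z : Y} (h : RW F n s t y)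
    (h' : RW F m t' u z) (ht : t' = !t) : RW F (n + m) s u (y * z) := by
  subst ht
  exact h.append h'

theorem RW.inv {n : ℕ} {s t : Bool} {y : Y} (h : RW F n s t y) : RW F n t s y⁻¹ := by
  induction h with
  | one b x hx hx' =>
    exact RW.one b x⁻¹ (inv_mem hx) (fun h => hx' (inv_mem_iff.mp h))
  | cons n b t x y hx hx' hy ih =>
    rw [mul_inv_rev]
    refine RW.append' ih (RW.one b x⁻¹ (inv_mem hx) (fun h => hx' (inv_mem_iff.mp h))) ?_
    simp

theorem RW.mul_left {n : ℕ} {s t : Bool} {y c : Y} (h : RW F n s t y) (hc : c ∈ F true)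
    (hc' : c ∈ F false) : RW F n s t (c * y) := by
  have hb : ∀ b, c ∈ F b := by
    intro b
    cases b
    · exact hc'
    · exact hc
  cases h with
  | one b x hx hx' =>
    exact RW.one s (c * y) (mul_mem (hb s) hx) (fun h => hx' (mem_mul_left (hb _) h))
  | cons n b t x y hx hx' hy =>
    rw [← mul_assoc]
    exact RW.cons n s t (c * x) y (mul_mem (hb s) hx) (fun h => hx' (mem_mul_left (hb _) h)) hy

theorem RW.mul_right {n : ℕ} {s t : Bool} {y c : Y} (h : RW F n s t y) (hc : c ∈ F true)
    (hc' : c ∈ F false) : RW F n s t (y * c) := by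
  have h1 := (h.inv.mul_left (inv_mem hc) (inv_mem hc')).inv
  rwa [mul_inv_rev, inv_inv, inv_inv] at h1

theorem RW.one_iff {s t : Bool} {y : Y} (h : RW F 1 s t y) : s = t ∧ y ∈ F s ∧ y ∉ F (!s) := by
  obtain ⟨x, y', h1, h2, h3, ⟨_, h4, h5⟩ | ⟨m, h4, h5⟩⟩ := h.first
  · rw [h4, mul_one] at h1
    rw [h1]
    exact ⟨h5, h2, h3⟩
  · have := h5.pos
    omega

theorem Amal.not_mem_C (hF : Amal F) {n : ℕ} {s t : Bool} {y : Y} (h : RW F n s t y) :
    ¬ (y ∈ F true ∧ y ∈ F false) := by
  rintro ⟨h1, h2⟩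
  apply hF.ne_one _ _ _ _ (h.mul_left (inv_mem h1) (inv_mem h2))
  exact inv_mul_cancel y

/-- An element of a factor cannot start with a letter of the other type, except in the obvious
way. -/
theorem Amal.not_mem_of_first (hF : Amal F) {n : ℕ} {s t : Bool} {y : Y} (h : RW F n s t y) :
    y ∉ F (!s) := by
  intro h1
  by_cases h2 : y ∈ F s
  · apply hF.not_mem_C h
    cases s
    · exact ⟨h1, h2⟩
    · exact ⟨h2, h1⟩
  · have h3 : RW F 1 (!s) (!s) y⁻¹ := by
      refine RW.one (!s) y⁻¹ (inv_mem h1) ?_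
      rw [Bool.not_not]
      exact fun h => h2 (inv_mem_iff.mp h)
    apply hF.ne_one _ _ _ _ (h3.append' h (Bool.not_not s).symm)
    exact inv_mul_cancel y

theorem Amal.not_mem_of_last (hF : Amal F) {n : ℕ} {s t : Bool} {y : Y} (h : RW F n s t y) :
    y ∉ F (!t) := fun h1 => hF.not_mem_of_first h.inv (inv_mem h1)

theorem Amal.not_mem (hF : Amal F) {n : ℕ} {s t : Bool} {y : Y} (h : RW F n s t y) (hn : 2 ≤ n)
    (b : Bool) : y ∉ F b := by
  intro h1
  by_cases hb : b = !s
  · rw [hb] at h1
    exact hF.not_mem_of_first h h1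
  · have hb' : b = s := by
      cases b <;> cases s <;> simp_all
    rw [hb'] at h1
    obtain ⟨x, y', e, h2, h3, ⟨h4, _, _⟩ | ⟨m, h4, h5⟩⟩ := h.first
    · omega
    · rw [e] at h1
      have h6 := mem_mul_left h2 h1
      have h7 := hF.not_mem_of_first h5
      rw [Bool.not_not] at h7
      exact h7 h6

theorem Amal.unique (hF : Amal F) {n m : ℕ} {s t s' t' : Bool} {y : Y} (h : RW F n s t y)
    (h' : RW F m s' t' y) : s = s' ∧ t = t' := by
  constructor
  · by_contra hne
    have e : s = !s' := by cases s <;> cases s' <;> simp_all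
    apply hF.ne_one _ _ _ _ (h'.inv.append' h e)
    exact inv_mul_cancel y
  · by_contra hne
    have e : t' = !t := by cases t <;> cases t' <;> simp_all
    apply hF.ne_one _ _ _ _ (h.append' h'.inv e)
    exact mul_inv_cancel y

/-- Every element is in the intersection or a reduced product. -/
theorem Amal.exists_rw (hF : Amal F) (y : Y) :
    (y ∈ F true ∧ y ∈ F false) ∨ ∃ n s t, RW F n s t y := by
  have key : ∀ (b : Bool) (x z : Y), x ∈ F b → ((z ∈ F true ∧ z ∈ F false) ∨
      ∃ n s t, RW F n s t z) → ((x * z ∈ F true ∧ x * z ∈ F false) ∨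
      ∃ n s t, RW F n s t (x * z)) := by
    intro b x z hx hz
    have toC : ∀ w, w ∈ F b → w ∈ F (!b) → w ∈ F true ∧ w ∈ F false := by
      intro w h1 h2
      cases b
      · exact ⟨h2, h1⟩
      · exact ⟨h1, h2⟩
    by_cases hx' : x ∈ F (!b)
    · obtain ⟨c1, c2⟩ := toC x hx hx'
      rcases hz with ⟨h1, h2⟩ | ⟨n, s, t, h⟩
      · exact Or.inl ⟨mul_mem c1 h1, mul_mem c2 h2⟩
      · exact Or.inr ⟨n, s, t, h.mul_left c1 c2⟩
    · rcases hz with ⟨h1, h2⟩ | ⟨n, s, t, h⟩
      · exact Or.inr ⟨1, b, b, (RW.one b x hx hx').mul_right h1 h2⟩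
      · by_cases hs : s = !b
        · exact Or.inr ⟨1 + n, b, t, (RW.one b x hx hx').append' h hs⟩
        · have hs' : s = b := by cases s <;> cases b <;> simp_all
          subst hs'
          obtain ⟨u, z', e, h1, h2, h3⟩ := h.first
          have hxu : x * u ∈ F s := mul_mem hx h1
          rw [e, ← mul_assoc]
          by_cases hc : x * u ∈ F (!s)
          · obtain ⟨c1, c2⟩ := toC _ hxu hc
            rcases h3 with ⟨_, h4, _⟩ | ⟨m, _, h5⟩
            · rw [h4, mul_one]
              exact Or.inl ⟨c1, c2⟩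
            · exact Or.inr ⟨m, !s, t, h5.mul_left c1 c2⟩
          · rcases h3 with ⟨_, h4, _⟩ | ⟨m, _, h5⟩
            · rw [h4, mul_one]
              exact Or.inr ⟨1, s, s, RW.one s _ hxu hc⟩
            · exact Or.inr ⟨m + 1, s, t, RW.cons m s t _ _ hxu hc h5⟩
  have hy : y ∈ F true ⊔ F false := by
    rw [hF.gen]
    exact Subgroup.mem_top y
  rw [← Subgroup.closure_eq (F true), ← Subgroup.closure_eq (F false),
    ← Subgroup.closure_union] at hy
  induction hy using Subgroup.closure_induction_left with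
  | one => exact Or.inl ⟨one_mem _, one_mem _⟩
  | mul_left x hx z _ ih =>
    rcases hx with hx | hx
    · exact key true x z hx ih
    · exact key false x z hx ih
  | inv_mul_cancel x hx z _ ih =>
    rcases hx with hx | hx
    · exact key true x⁻¹ z (inv_mem hx) ih
    · exact key false x⁻¹ z (inv_mem hx) ih

theorem Amal.rw_of_not_mem (hF : Amal F) {y : Y} {b : Bool} (hy : y ∉ F b) :
    ∃ n s t, RW F n s t y := by
  rcases hF.exists_rw y with ⟨h1, h2⟩ | h
  · exfalso
    cases b
    · exact hy h2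
    · exact hy h1
  · exact h

/-- Strip the last letter if it is of type `b`. -/
theorem Amal.strip_right (hF : Amal F) {y : Y} {b : Bool} (hy : y ∉ F b) :
    ∃ z ∈ F b, ∃ n s, RW F n s (!b) (y * z) := by
  obtain ⟨n, s, t, h⟩ := hF.rw_of_not_mem hy
  by_cases ht : t = !b
  · subst ht
    exact ⟨1, one_mem _, n, s, by rw [mul_one]; exact h⟩
  · have ht' : t = b := by cases t <;> cases b <;> simp_all
    subst ht'
    obtain ⟨x, y', e, h1, h2, h3⟩ := h.inv.first
    have e2 : y * x = y'⁻¹ := by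
      have h5 : y = y'⁻¹ * x⁻¹ := by rw [← mul_inv_rev, ← e, inv_inv]
      rw [h5]
      group
    rcases h3 with ⟨_, h4, _⟩ | ⟨m, _, h5⟩
    · exfalso
      rw [h4, mul_one] at e
      apply hy
      rw [← inv_inv y, e]
      exact inv_mem h1
    · refine ⟨x, h1, m, s, ?_⟩
      rw [e2]
      exact h5.inv

/-- Strip both sides. -/
theorem Amal.strip (hF : Amal F) {y : Y} {b : Bool} (hy : y ∉ F b) :
    ∃ z ∈ F b, ∃ z' ∈ F b, ∃ n, RW F n (!b) (!b) (z * y * z') := by
  obtain ⟨z', hz', n, s, h⟩ := hF.strip_right hy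
  by_cases hs : s = !b
  · subst hs
    refine ⟨1, one_mem _, z', hz', n, ?_⟩
    rw [one_mul]
    exact h
  · have hs' : s = b := by cases s <;> cases b <;> simp_all
    subst hs'
    obtain ⟨x, y', e, h1, h2, h3⟩ := h.first
    rcases h3 with ⟨_, _, h5⟩ | ⟨m, _, h5⟩
    · exfalso
      revert h5
      cases s <;> decide
    · refine ⟨x⁻¹, inv_mem h1, z', hz', m, ?_⟩
      rw [mul_assoc, e, inv_mul_cancel_left]
      exact h5

/-- Conjugates of a letter. -/
theorem RW.conj {n : ℕ} {s t : Bool} {y x : Y} (h : RW F n s t y) (hx : x ∈ F (!t))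
    (hx' : x ∉ F t) : ∃ k, 2 ≤ k ∧ RW F k s s (y * x * y⁻¹) := by
  have h1 : RW F 1 (!t) (!t) x := RW.one (!t) x hx (by rw [Bool.not_not]; exact hx')
  have h2 := (h.append h1).append' h.inv (Bool.not_not t).symm
  have := h.pos
  exact ⟨_, by omega, h2⟩

/-- No involution. -/
theorem Amal.t2 (hF : Amal F) (h2 : ∀ b, ∀ x ∈ F b, x * x = 1 → x = 1) (y : Y)
    (hy : y * y = 1) : y = 1 := by
  by_contra hne
  have key : ∀ n, ∀ s t y, RW F n s t y → y * y = 1 → False := by
    intro n
    induction n using Nat.strong_induction_on with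
    | _ n ih =>
      intro s t y h hyy
      by_cases hst : s = !t
      · exact hF.ne_one _ _ _ _ (h.append' h hst) hyy
      · have hst' : s = t := by cases s <;> cases t <;> simp_all
        subst hst'
        obtain ⟨x, y', e, h3, h4, ⟨h5, h6, _⟩ | ⟨m, h5, h6⟩⟩ := h.first
        · rw [h6, mul_one] at e
          rw [e] at hyy
          have h7 := h2 s x h3 hyy
          rw [h7] at h4
          exact h4 (one_mem _)
        · -- y = x y', y' ends with a letter of type s
          obtain ⟨u, w, e', h7, h8, h9⟩ := h6.inv.first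
          have e2 : y' = w⁻¹ * u⁻¹ := by rw [← mul_inv_rev, ← e', inv_inv]
          rcases h9 with ⟨_, _, h11⟩ | ⟨k, h10, h11⟩
          · exfalso
            revert h11
            cases s <;> decide
          · have h12 : RW F k (!s) (!s) w⁻¹ := h11.inv
            -- conjugate: x⁻¹ y x = y' x = w⁻¹ (u⁻¹ x)
            have e3 : x⁻¹ * y * x = w⁻¹ * (u⁻¹ * x) := by
              rw [e, e2]
              group
            have h13 : (w⁻¹ * (u⁻¹ * x)) * (w⁻¹ * (u⁻¹ * x)) = 1 := by
              rw [← e3]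
              have : x⁻¹ * y * x * (x⁻¹ * y * x) = x⁻¹ * (y * y) * x := by group
              rw [this, hyy]
              group
            have h14 : u⁻¹ * x ∈ F s := mul_mem (inv_mem h7) h3
            by_cases h15 : u⁻¹ * x ∈ F (!s)
            · have h16 : RW F k (!s) (!s) (w⁻¹ * (u⁻¹ * x)) := by
                cases s
                · exact h12.mul_right h15 h14
                · exact h12.mul_right h14 h15
              exact ih k (by omega) _ _ _ h16 h13
            · have h16 := h12.append' (RW.one s (u⁻¹ * x) h14 h15) (Bool.not_not s).symm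
              exact ih (k + 1) (by omega) _ _ _ h16 h13
  rcases hF.exists_rw y with ⟨h1, _⟩ | ⟨n, s, t, h⟩
  · exact hne (h2 true y h1 hy)
  · exact key n s t y h hy

end Pool.Agent.ABA.AM
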