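import Pool.Agent.Helper94_ABA.Push
import Pool.Agent.Helper17_ABA.Ident

/-! # The double amalgam `Λ *_{Z³} P *_{Z²} Λ` and `P_Λ` (MP_d857f1_al, section 7) -/

set_option autoImplicit false

namespace Pool.Agent.ABA.AM

open Monoid

/-- Homomorphism of `Z × Z × Z` from a homomorphism of `Z` and two commuting elements. -/
noncomputable def tri {K : Type} [Group K] (α : Multiplicative ℤ →* K) (u v : K)
    (huv : Commute u v) (hu : ∀ m, Commute (α m) u) (hv : ∀ m, Commute (α m) v) :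
    Multiplicative ℤ × (Multiplicative ℤ × Multiplicative ℤ) →* K :=
  α.noncommCoprod ((zpowersHom K u).noncommCoprod (zpowersHom K v) (by
    intro m n
    rw [zpowersHom_apply, zpowersHom_apply]
    exact (huv.zpow_zpow _ _))) (by
    intro m n
    rw [MonoidHom.noncommCoprod_apply, zpowersHom_apply, zpowersHom_apply]
    exact ((hu m).zpow_right _).mul_right ((hv m).zpow_right _))

theorem tri_apply {K : Type} [Group K] (α : Multiplicative ℤ →* K) (u v : K)
    (huv : Commute u v) (hu : ∀ m, Commute (α m) u) (hv : ∀ m, Commute (α m) v)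
    (m : Multiplicative ℤ × (Multiplicative ℤ × Multiplicative ℤ)) :
    tri α u v huv hu hv m =
      α m.1 * (u ^ (Multiplicative.toAdd m.2.1) * v ^ (Multiplicative.toAdd m.2.2)) := by
  rw [tri, MonoidHom.noncommCoprod_apply, MonoidHom.noncommCoprod_apply, zpowersHom_apply,
    zpowersHom_apply]

/-- The same with one element. -/
noncomputable def duo {K : Type} [Group K] (α : Multiplicative ℤ →* K) (u : K)
    (hu : ∀ m, Commute (α m) u) : Multiplicative ℤ × Multiplicative ℤ →* K :=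
  α.noncommCoprod (zpowersHom K u) (by
    intro m n
    rw [zpowersHom_apply]
    exact (hu m).zpow_right _)

theorem duo_apply {K : Type} [Group K] (α : Multiplicative ℤ →* K) (u : K)
    (hu : ∀ m, Commute (α m) u) (m : Multiplicative ℤ × Multiplicative ℤ) :
    duo α u hu m = α m.1 * u ^ (Multiplicative.toAdd m.2) := by
  rw [duo, MonoidHom.noncommCoprod_apply, zpowersHom_apply]

theorem tri_range {K : Type} [Group K] (α : Multiplicative ℤ →* K) (u v : K)
    (huv : Commute u v) (hu : ∀ m, Commute (α m) u) (hv : ∀ m, Commute (α m) v) :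
    (tri α u v huv hu hv).range = α.range ⊔ Subgroup.closure {u, v} := by
  apply le_antisymm
  · rintro _ ⟨m, rfl⟩
    rw [tri_apply]
    refine mul_mem (Subgroup.mem_sup_left ⟨m.1, rfl⟩) (Subgroup.mem_sup_right ?_)
    have hu' : u ∈ Subgroup.closure {u, v} := Subgroup.subset_closure (Set.mem_insert _ _)
    have hv' : v ∈ Subgroup.closure {u, v} :=
      Subgroup.subset_closure (Set.mem_insert_of_mem _ (Set.mem_singleton _))
    exact mul_mem (zpow_mem hu' _) (zpow_mem hv' _)
  · rw [sup_le_iff, Subgroup.closure_le]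
    constructor
    · rintro _ ⟨m, rfl⟩
      refine ⟨(m, (1, 1)), ?_⟩
      rw [tri_apply]
      simp
    · rintro w (rfl | hw)
      · refine ⟨(1, (Multiplicative.ofAdd 1, 1)), ?_⟩
        rw [tri_apply]
        simp
      · rw [Set.mem_singleton_iff] at hw
        subst hw
        refine ⟨(1, (1, Multiplicative.ofAdd 1)), ?_⟩
        rw [tri_apply]
        simp

theorem duo_range {K : Type} [Group K] (α : Multiplicative ℤ →* K) (u : K)
    (hu : ∀ m, Commute (α m) u) : (duo α u hu).range = α.range ⊔ Subgroup.closure {u} := by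
  apply le_antisymm
  · rintro _ ⟨m, rfl⟩
    rw [duo_apply]
    have hu' : u ∈ Subgroup.closure {u} := Subgroup.subset_closure (Set.mem_singleton _)
    exact mul_mem (Subgroup.mem_sup_left ⟨m.1, rfl⟩) (Subgroup.mem_sup_right (zpow_mem hu' _))
  · rw [sup_le_iff, Subgroup.closure_le]
    constructor
    · rintro _ ⟨m, rfl⟩
      refine ⟨(m, 1), ?_⟩
      rw [duo_apply]
      simp
    · rintro w hw
      rw [Set.mem_singleton_iff] at hw
      subst hw
      refine ⟨(1, Multiplicative.ofAdd 1), ?_⟩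
      rw [duo_apply]
      simp

theorem tri_injective {K : Type} [Group K] (α : Multiplicative ℤ →* K) (u v : K)
    (huv : Commute u v) (hu : ∀ m, Commute (α m) u) (hv : ∀ m, Commute (α m) v)
    (h : ∀ (m : Multiplicative ℤ) (i j : ℤ), α m * (u ^ i * v ^ j) = 1 →
      m = 1 ∧ i = 0 ∧ j = 0) : Function.Injective (tri α u v huv hu hv) := by
  rw [injective_iff_map_eq_one]
  rintro ⟨m, i, j⟩ hm
  rw [tri_apply] at hm
  obtain ⟨h1, h2, h3⟩ := h m _ _ hm
  have h2' : i = 1 := h2
  have h3' : j = 1 := h3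
  rw [h1, h2', h3']
  rfl

theorem duo_injective {K : Type} [Group K] (α : Multiplicative ℤ →* K) (u : K)
    (hu : ∀ m, Commute (α m) u)
    (h : ∀ (m : Multiplicative ℤ) (i : ℤ), α m * u ^ i = 1 → m = 1 ∧ i = 0) :
    Function.Injective (duo α u hu) := by
  rw [injective_iff_map_eq_one]
  rintro ⟨m, i⟩ hm
  rw [duo_apply] at hm
  obtain ⟨h1, h2⟩ := h m _ hm
  have h2' : i = 1 := h2
  rw [h1, h2']
  rfl

/-- Exponent sums show that the two cyclic subgroups are infinite. -/
theorem αP_injective (R : Set (Wd ℤ)) (hR : ∀ r ∈ R, (r.map Prod.snd).sum = 0) (t : Bool) :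
    Function.Injective (αP ℤ R t) := by
  have hev : ∀ w : Wd ℤ, ev (fun _ : Bool => MonoidHom.id (Multiplicative ℤ)) w =
      Multiplicative.ofAdd (w.map Prod.snd).sum := by
    intro w
    induction w with
    | nil => rfl
    | cons s w ih =>
      rw [ev_cons, ih, List.map_cons, List.sum_cons, ofAdd_add]
      rfl
  let f : PG ℤ R →* Multiplicative ℤ := PGlift R (fun _ => MonoidHom.id _) (by
    intro r hr
    rw [hev, hR r hr]
    rfl)
  have h1 : f.comp (αP ℤ R t) = MonoidHom.id _ := PGlift_α _ _ _ t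
  have h2 : Function.LeftInverse f (αP ℤ R t) := fun m => DFunLike.congr_fun h1 m
  exact h2.injective

/-- What we need from the group `P`. -/
structure PData {G : Type} [Group G] (A B : Subgroup G) (g : G) : Prop where
  pa : ∀ a ∈ A, ∀ i j : ℤ, Pι A B g a * Pu A B g ^ i * Pv A B g ^ j = 1 →
    a = 1 ∧ i = 0 ∧ j = 0
  pb : ∀ b ∈ B, ∀ i : ℤ, Pι A B g b * Pc A B g ^ i = 1 → b = 1 ∧ i = 0
  geo : Geo (PA A B g) (PB A B g)

/-- The statement about `P` (helper52). -/
def PLevelStmt : Prop :=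
  ∀ (R : Set (Wd ℤ)) (g : Wd ℤ), (∀ r ∈ R, (r.map Prod.snd).sum = 0) →
    Geo (αP ℤ R true).range (αP ℤ R false).range →
    ¬ IsABA (αP ℤ R true).range (αP ℤ R false).range (ev (αP ℤ R) g) →
    PData (αP ℤ R true).range (αP ℤ R false).range (ev (αP ℤ R) g)

/-- Everything about `P_Λ`: the geometric class, and the two embeddings. -/
theorem plam (R : Set (Wd ℤ)) (g : Wd ℤ) (Λ : Type) [AddCommGroup Λ] (c : ℤ →+ Λ) (x y z : Λ)
    (hR : ∀ r ∈ R, (r.map Prod.snd).sum = 0)
    (hP : PData (αP ℤ R true).range (αP ℤ R false).range (ev (αP ℤ R) g))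
    (htf : ∀ (n : ℕ) (t : Λ), n ≠ 0 → n • t = 0 → t = 0)
    (hx : ∀ i j k : ℤ, c i + j • x + k • z = 0 → i = 0 ∧ j = 0 ∧ k = 0)
    (hy : ∀ i j : ℤ, c i + j • y = 0 → i = 0 ∧ j = 0) :
    ∃ (Y : Type) (_ : Group Y)
      (jP : PP (αP ℤ R true).range (αP ℤ R false).range (ev (αP ℤ R) g) →* Y)
      (jL : Bool → Multiplicative Λ →* Y) (back : Y →* PG Λ (Rnew R g c x y z)),
      (∀ (t : Bool) (k : ℤ), jL t (Multiplicative.ofAdd (c k)) =
        jP (Pι _ _ _ (αP ℤ R t (Multiplicative.ofAdd k)))) ∧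
      (jL true (Multiplicative.ofAdd x) = jP (Pu _ _ _)) ∧
      (jL true (Multiplicative.ofAdd z) = jP (Pv _ _ _)) ∧
      (jL false (Multiplicative.ofAdd y) = jP (Pc _ _ _)) ∧
      (∀ t, back.comp (jL t) = αP Λ (Rnew R g c x y z) t) ∧
      Function.Injective jP ∧ (∀ t, Function.Injective (jL t)) ∧
      Geo (jL true).range (jL false).range := by
  set A := (αP ℤ R true).range with hA
  set B := (αP ℤ R false).range with hB
  set γ := ev (αP ℤ R) g with hγ
  have hinj := αP_injective R hR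
  -- the first amalgam
  have c1 : Commute (Pu A B γ) (Pv A B γ) := P_uv A B γ
  have c2 : ∀ m, Commute (((Pι A B γ).comp (αP ℤ R true)) m) (Pu A B γ) := fun m =>
    (P_ua A B γ ⟨m, rfl⟩ : Commute (Pu A B γ) _).symm
  have c3 : ∀ m, Commute (((Pι A B γ).comp (αP ℤ R true)) m) (Pv A B γ) := fun m =>
    (P_va A B γ ⟨m, rfl⟩ : Commute (Pv A B γ) _).symm
  have c4 : ∀ m, Commute (((Pι A B γ).comp (αP ℤ R false)) m) (Pc A B γ) := fun m =>
    (P_cb A B γ ⟨m, rfl⟩ : Commute (Pc A B γ) _).symm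
  set f₁ := tri ((Pι A B γ).comp (αP ℤ R true)) (Pu A B γ) (Pv A B γ) c1 c2 c3 with hf₁
  set g₁ := tri (AddMonoidHom.toMultiplicative c) (Multiplicative.ofAdd x)
    (Multiplicative.ofAdd z) (Commute.all _ _) (fun _ => Commute.all _ _)
    (fun _ => Commute.all _ _) with hg₁
  set q := duo ((Pι A B γ).comp (αP ℤ R false)) (Pc A B γ) c4 with hq
  set g₂ := duo (AddMonoidHom.toMultiplicative c) (Multiplicative.ofAdd y)
    (fun _ => Commute.all _ _) with hg₂
  have if₁ : Function.Injective f₁ := by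
    apply tri_injective
    intro m i j h
    rw [← mul_assoc] at h
    obtain ⟨h1, h2, h3⟩ := hP.pa (αP ℤ R true m) ⟨m, rfl⟩ i j h
    exact ⟨hinj true (by rw [h1, map_one]), h2, h3⟩
  have ig₁ : Function.Injective g₁ := by
    apply tri_injective
    intro m i j h
    have h1 : c (Multiplicative.toAdd m) + (i • x + j • z) = 0 := h
    rw [← add_assoc] at h1
    obtain ⟨h2, h3, h4⟩ := hx _ _ _ h1
    exact ⟨h2, h3, h4⟩
  have iq : Function.Injective q := by
    apply duo_injective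
    intro m i h
    obtain ⟨h1, h2⟩ := hP.pb (αP ℤ R false m) ⟨m, rfl⟩ i h
    exact ⟨hinj false (by rw [h1, map_one]), h2⟩
  have ig₂ : Function.Injective g₂ := by
    apply duo_injective
    intro m i h
    have h1 : c (Multiplicative.toAdd m) + i • y = 0 := h
    exact hy _ _ h1
  have rf₁ : f₁.range = PA A B γ := by
    rw [hf₁, tri_range, MonoidHom.range_comp]
    rfl
  have rq : q.range = PB A B γ := by
    rw [hq, duo_range, MonoidHom.range_comp]
    rfl
  have hcommΛ : ∀ a b : Multiplicative Λ, a * b = b * a := fun a b => mul_comm a b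
  have htfΛ : ∀ a : Multiplicative Λ, a * a = 1 → a = 1 := by
    intro a ha
    have h1 : (2 : ℕ) • (Multiplicative.toAdd a) = 0 := by
      rw [two_nsmul]
      exact ha
    exact htf 2 _ (by norm_num) h1
  -- first step
  set i₁ := inX f₁ g₁ with hi₁
  have ii₁ : Function.Injective i₁ := inX_injective if₁ ig₁
  have G₁ : Geo (inM f₁ g₁).range ((PB A B γ).map i₁) :=
    am1 if₁ ig₁ hcommΛ htfΛ _ (by rw [rf₁]; exact hP.geo)
  -- second step
  set f₂ := i₁.comp q with hf₂
  have if₂ : Function.Injective f₂ := ii₁.comp iq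
  have rf₂ : f₂.range = (PB A B γ).map i₁ := by
    rw [hf₂, MonoidHom.range_comp, rq]
  have G₂ : Geo ((inM f₁ g₁).range.map (inX f₂ g₂)) (inM f₂ g₂).range :=
    am2 if₂ ig₂ hcommΛ htfΛ _ (by rw [rf₂]; exact G₁)
  -- back
  have hb₁ : ∀ m, Pmap R g c x y z (f₁ m) = αP Λ (Rnew R g c x y z) true (g₁ m) := by
    rintro ⟨m, i, j⟩
    rw [hf₁, hg₁, tri_apply, tri_apply, map_mul, map_mul, map_zpow, map_zpow, Pmap_u, Pmap_v,
      map_mul, map_mul, map_zpow, map_zpow]
    congr 1
  set b₁ : Push f₁ g₁ →* PG Λ (Rnew R g c x y z) :=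
    pushLift (Pmap R g c x y z) (αP Λ (Rnew R g c x y z) true) hb₁ with hb₁'
  have hb₂ : ∀ m, b₁ (f₂ m) = αP Λ (Rnew R g c x y z) false (g₂ m) := by
    rintro ⟨m, i⟩
    rw [hf₂, MonoidHom.comp_apply, hb₁', hi₁, pushLift_inX, hq, hg₂, duo_apply, duo_apply,
      map_mul, map_zpow, Pmap_c, map_mul, map_zpow]
    congr 1
  have key₁ : ∀ e w m, f₁ e = w → g₁ e = m → inM f₁ g₁ m = i₁ w := by
    rintro e w m rfl rfl
    exact (inX_inM f₁ g₁ e).symm
  have key₂ : ∀ e w m, f₂ e = w → g₂ e = m → inM f₂ g₂ m = inX f₂ g₂ w := by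
    rintro e w m rfl rfl
    exact (inX_inM f₂ g₂ e).symm
  refine ⟨Push f₂ g₂, inferInstance, (inX f₂ g₂).comp i₁,
    fun t => match t with
      | true => (inX f₂ g₂).comp (inM f₁ g₁)
      | false => inM f₂ g₂,
    pushLift b₁ (αP Λ (Rnew R g c x y z) false) hb₂, ?_, ?_, ?_, ?_, ?_, ?_, ?_, ?_⟩
  · intro t k
    cases t
    · show inM f₂ g₂ _ = (inX f₂ g₂) (i₁ _)
      refine key₂ (Multiplicative.ofAdd k, 1) _ _ ?_ ?_
      · rw [hf₂, MonoidHom.comp_apply, hq, duo_apply]
        simp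
      · rw [hg₂, duo_apply]
        simp
    · show (inX f₂ g₂) (inM f₁ g₁ _) = (inX f₂ g₂) (i₁ _)
      refine congrArg _ (key₁ (Multiplicative.ofAdd k, (1, 1)) _ _ ?_ ?_)
      · rw [hf₁, tri_apply]
        simp
      · rw [hg₁, tri_apply]
        simp
  · show (inX f₂ g₂) (inM f₁ g₁ _) = (inX f₂ g₂) (i₁ _)
    refine congrArg _ (key₁ (1, (Multiplicative.ofAdd 1, 1)) _ _ ?_ ?_)
    · rw [hf₁, tri_apply]
      simp
    · rw [hg₁, tri_apply]
      simp
  · show (inX f₂ g₂) (inM f₁ g₁ _) = (inX f₂ g₂) (i₁ _)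
    refine congrArg _ (key₁ (1, (1, Multiplicative.ofAdd 1)) _ _ ?_ ?_)
    · rw [hf₁, tri_apply]
      simp
    · rw [hg₁, tri_apply]
      simp
  · show inM f₂ g₂ _ = (inX f₂ g₂) (i₁ _)
    refine key₂ (1, Multiplicative.ofAdd 1) _ _ ?_ ?_
    · rw [hf₂, MonoidHom.comp_apply, hq, duo_apply]
      simp
    · rw [hg₂, duo_apply]
      simp
  · intro t
    cases t
    · refine MonoidHom.ext fun m => ?_
      show pushLift b₁ _ hb₂ (inM f₂ g₂ m) = _
      rw [pushLift_inM]
    · refine MonoidHom.ext fun m => ?_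
      show pushLift b₁ _ hb₂ ((inX f₂ g₂) (inM f₁ g₁ m)) = _
      rw [pushLift_inX, hb₁', pushLift_inM]
  · exact (inX_injective if₂ ig₂).comp ii₁
  · intro t
    cases t
    · exact inM_injective if₂ ig₂
    · exact (inX_injective if₂ ig₂).comp (inM_injective if₁ ig₁)
  · show Geo ((inX f₂ g₂).comp (inM f₁ g₁)).range (inM f₂ g₂).range
    rw [MonoidHom.range_comp]
    exact G₂

/-- **The `P_Λ` statement from the `P` statement.** -/
theorem pLamStmt (hP : PLevelStmt) : PLamStmt := by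
  intro R g Λ _ c x y z hR hG hg htf hx hy
  obtain ⟨Y, _, jP, jL, back, h1, h2, h3, h4, h5, _, _, h8⟩ :=
    plam R g Λ c x y z hR (hP R g hR hG hg) htf hx hy
  exact ident R g c x y z jP jL h1 h2 h3 h4 back h5 h8

end Pool.Agent.ABA.AM
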