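import Pool.Agent.Helper94_ABA.Step1

/-! # The amalgam lemma, first step: the relation of length six (MP_d857f1_al, section 7) -/

set_option autoImplicit false

namespace Pool.Agent.ABA.AM

variable {Y : Type*} [Group Y] {F : Bool → Subgroup Y}

/-- `p m q` with a letter `m` of type `false` between two words of type `true`. -/
theorem RW.glue {a b : ℕ} {s t : Bool} {p m q : Y} (hp : RW F a s true p) (hm : m ∈ F false)
    (hm' : m ∉ F true) (hq : RW F b true t q) : ∃ k, RW F k s t (p * m * q) :=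
  ⟨_, (hp.append' (RW.one false m hm hm') rfl).append' hq rfl⟩

/-- What we need to know about an element `e` of `F true`. -/
structure Good6 (F : Bool → Subgroup Y) (e : Y) : Prop where
  mem : e ∈ F true
  nm : e ∉ F false
  e4 : ∀ t ∈ F true, t ∈ F false → ∀ t' ∈ F true, t' ∈ F false → t ≠ 1 → t' ≠ 1 →
    e⁻¹ * t * e * t' * e⁻¹ ∉ F false
  e4' : ∀ t ∈ F true, t ∈ F false → ∀ t' ∈ F true, t' ∈ F false → t ≠ 1 → t' ≠ 1 →
    e * t * e⁻¹ * t' * e ∉ F false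
  e6 : E6 (F true ⊓ F false) e
  e6' : E6 (F true ⊓ F false) e⁻¹

theorem Good6.inv {e : Y} (h : Good6 F e) : Good6 F e⁻¹ where
  mem := inv_mem h.mem
  nm := fun h' => h.nm (inv_mem_iff.mp h')
  e4 := by
    intro t a1 a2 t' b1 b2 n1 n2
    rw [inv_inv]
    exact h.e4' t a1 a2 t' b1 b2 n1 n2
  e4' := by
    intro t a1 a2 t' b1 b2 n1 n2
    rw [inv_inv]
    exact h.e4 t a1 a2 t' b1 b2 n1 n2
  e6 := h.e6'
  e6' := by
    rw [inv_inv]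
    exact h.e6

section segments

variable (hmal : ∀ x ∈ F true, x ∉ F false → ∀ c ∈ F true, c ∈ F false → c ≠ 1 →
  x * c * x⁻¹ ∉ F false)

include hmal

theorem Good6.r1 {e : Y} (h : Good6 F e) : RW F 1 true true e := RW.one true e h.mem h.nm

theorem Good6.r2 {e : Y} (h : Good6 F e) {l : Y} (hl : l ∈ F false) (hne : l ≠ 1) :
    ∃ k, RW F k true true (e * l * e⁻¹) := by
  obtain ⟨k, h1, _⟩ := conjM hmal (RW.one true e h.mem h.nm) hl hne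
  exact ⟨k, h1⟩

/-- Three letters: `e⁻¹ l e l' e⁻¹`. -/
theorem Good6.r3 {e : Y} (h : Good6 F e) {l l' : Y} (hl : l ∈ F false) (hne : l ≠ 1)
    (hl' : l' ∈ F false) (hne' : l' ≠ 1) :
    ∃ k, RW F k true true (e⁻¹ * l * e * l' * e⁻¹) := by
  have ri : RW F 1 true true e⁻¹ := RW.one true _ h.inv.mem h.inv.nm
  have re : RW F 1 true true e := RW.one true _ h.mem h.nm
  by_cases h1 : l ∈ F true
  · by_cases h2 : l' ∈ F true
    · exact ⟨1, RW.one true _ (mul_mem (mul_mem (mul_mem (mul_mem h.inv.mem h1) h.mem) h2)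
        h.inv.mem) (h.e4 l h1 hl l' h2 hl' hne hne')⟩
    · have h3 : RW F 1 true true (e⁻¹ * l * e) := by
        have h4 := hmal e⁻¹ h.inv.mem h.inv.nm l h1 hl hne
        rw [inv_inv] at h4
        exact RW.one true _ (mul_mem (mul_mem h.inv.mem h1) h.mem) h4
      exact RW.glue h3 hl' h2 ri
  · by_cases h2 : l' ∈ F true
    · have h3 : RW F 1 true true (e * l' * e⁻¹) :=
        RW.one true _ (mul_mem (mul_mem h.mem h2) h.inv.mem) (hmal e h.mem h.nm l' h2 hl' hne')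
      obtain ⟨k, h4⟩ := RW.glue ri hl h1 h3
      refine ⟨k, ?_⟩
      have e1 : e⁻¹ * l * e * l' * e⁻¹ = e⁻¹ * l * (e * l' * e⁻¹) := by group
      rw [e1]
      exact h4
    · obtain ⟨k, h4⟩ := RW.glue ri hl h1 re
      exact RW.glue h4 hl' h2 ri

/-- Four letters, not all labels in the intersection: `e l e⁻¹ l' e l'' e⁻¹`. -/
theorem Good6.r4 {e : Y} (h : Good6 F e) {l l' l'' : Y} (hl : l ∈ F false) (hne : l ≠ 1)
    (hl' : l' ∈ F false) (hne' : l' ≠ 1) (hl'' : l'' ∈ F false) (hne'' : l'' ≠ 1)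
    (hnot : ¬ (l ∈ F true ∧ l' ∈ F true ∧ l'' ∈ F true)) :
    ∃ k, RW F k true true (e * l * e⁻¹ * l' * e * l'' * e⁻¹) := by
  have ri : RW F 1 true true e⁻¹ := RW.one true _ h.inv.mem h.inv.nm
  have re : RW F 1 true true e := RW.one true _ h.mem h.nm
  by_cases h1 : l ∈ F true
  · have h3 : RW F 1 true true (e * l * e⁻¹) :=
      RW.one true _ (mul_mem (mul_mem h.mem h1) h.inv.mem) (hmal e h.mem h.nm l h1 hl hne)
    by_cases h2 : l' ∈ F true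
    · have h5 : l'' ∉ F true := fun h5 => hnot ⟨h1, h2, h5⟩
      have h6 : RW F 1 true true (e * l * e⁻¹ * l' * e) :=
        RW.one true _ (mul_mem (mul_mem (mul_mem (mul_mem h.mem h1) h.inv.mem) h2) h.mem)
          (h.e4' l h1 hl l' h2 hl' hne hne')
      exact RW.glue h6 hl'' h5 ri
    · obtain ⟨k, h4⟩ := h.r2 hmal hl'' hne''
      obtain ⟨k', h5⟩ := RW.glue h3 hl' h2 h4
      refine ⟨k', ?_⟩
      have e1 : e * l * e⁻¹ * l' * e * l'' * e⁻¹ = e * l * e⁻¹ * l' * (e * l'' * e⁻¹) := by group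
      rw [e1]
      exact h5
  · obtain ⟨k, h4⟩ := h.r3 hmal hl' hne' hl'' hne''
    obtain ⟨k', h5⟩ := RW.glue re hl h1 h4
    refine ⟨k', ?_⟩
    have e1 : e * l * e⁻¹ * l' * e * l'' * e⁻¹ = e * l * (e⁻¹ * l' * e * l'' * e⁻¹) := by group
    rw [e1]
    exact h5

/-- Five letters `e⁻¹ l e l' e⁻¹ l'' e l''' e⁻¹`. -/
theorem Good6.r5 {e : Y} (h : Good6 F e) {l l' l'' l''' : Y} (hl : l ∈ F false) (hne : l ≠ 1)
    (hl' : l' ∈ F false) (hne' : l' ≠ 1) (hl'' : l'' ∈ F false) (hne'' : l'' ≠ 1)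
    (hl''' : l''' ∈ F false) (hne''' : l''' ≠ 1)
    (hnot : ¬ (l ∈ F true ∧ l' ∈ F true ∧ l'' ∈ F true))
    (hnot' : ¬ (l' ∈ F true ∧ l'' ∈ F true ∧ l''' ∈ F true)) :
    ∃ k, RW F k true true (e⁻¹ * l * e * l' * e⁻¹ * l'' * e * l''' * e⁻¹) := by
  have ri : RW F 1 true true e⁻¹ := RW.one true _ h.inv.mem h.inv.nm
  by_cases h1 : l ∈ F true
  · have h3 : RW F 1 true true (e⁻¹ * l * e) := by
      have h4 := hmal e⁻¹ h.inv.mem h.inv.nm l h1 hl hne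
      rw [inv_inv] at h4
      exact RW.one true _ (mul_mem (mul_mem h.inv.mem h1) h.mem) h4
    by_cases h2 : l' ∈ F true
    · have h5 : l'' ∉ F true := fun h5 => hnot ⟨h1, h2, h5⟩
      have h6 : RW F 1 true true (e⁻¹ * l * e * l' * e⁻¹) :=
        RW.one true _ (mul_mem (mul_mem (mul_mem (mul_mem h.inv.mem h1) h.mem) h2) h.inv.mem)
          (h.e4 l h1 hl l' h2 hl' hne hne')
      obtain ⟨k, h7⟩ := h.r2 hmal hl''' hne'''
      obtain ⟨k', h8⟩ := RW.glue h6 hl'' h5 h7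
      refine ⟨k', ?_⟩
      have e1 : e⁻¹ * l * e * l' * e⁻¹ * l'' * e * l''' * e⁻¹ =
          e⁻¹ * l * e * l' * e⁻¹ * l'' * (e * l''' * e⁻¹) := by group
      rw [e1]
      exact h8
    · obtain ⟨k, h4⟩ := h.r3 hmal hl'' hne'' hl''' hne'''
      obtain ⟨k', h5⟩ := RW.glue h3 hl' h2 h4
      refine ⟨k', ?_⟩
      have e1 : e⁻¹ * l * e * l' * e⁻¹ * l'' * e * l''' * e⁻¹ =
          e⁻¹ * l * e * l' * (e⁻¹ * l'' * e * l''' * e⁻¹) := by group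
      rw [e1]
      exact h5
  · obtain ⟨k, h4⟩ := h.r4 hmal hl' hne' hl'' hne'' hl''' hne''' hnot'
    obtain ⟨k', h5⟩ := RW.glue ri hl h1 h4
    refine ⟨k', ?_⟩
    have e1 : e⁻¹ * l * e * l' * e⁻¹ * l'' * e * l''' * e⁻¹ =
        e⁻¹ * l * (e * l' * e⁻¹ * l'' * e * l''' * e⁻¹) := by group
    rw [e1]
    exact h5

end segments

/-- Closing up. -/
theorem close6 (hF : Amal F) {l₀ ω l r : Y} {k : ℕ} (h0 : l₀ ∈ F false) (h0' : l₀ ∉ F true)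
    (hω : ω ∈ F true) (hl : l ∈ F false) (hl' : l ∉ F true) (hr : RW F k true true r) :
    l₀ * ω * l * r ≠ 1 := by
  intro h
  by_cases h1 : ω ∈ F false
  · have h2 : l₀ * ω * l ∈ F false := mul_mem (mul_mem h0 h1) hl
    have h3 : r ∈ F false := by
      rw [← inv_eq_of_mul_eq_one_right h]
      exact inv_mem h2
    exact hF.not_mem_of_first hr h3
  · have h2 : RW F (1 + 1) false true (l₀ * ω) :=
      (RW.one false l₀ h0 h0').append' (RW.one true ω hω h1) rfl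
    obtain ⟨k', h3⟩ := RW.glue h2 hl hl' hr
    exact hF.ne_one _ _ _ _ h3 h

/-- The relation of length six, for one position of the longest segment. -/
theorem core6 (hF : Amal F) (hmal : ∀ x ∈ F true, x ∉ F false → ∀ c ∈ F true, c ∈ F false →
      c ≠ 1 → x * c * x⁻¹ ∉ F false) {e : Y} (h : Good6 F e) {l₀ l₁ l₂ l₃ l₄ l₅ : Y}
    (m₀ : l₀ ∈ F false) (m₁ : l₁ ∈ F false) (m₂ : l₂ ∈ F false) (m₃ : l₃ ∈ F false)
    (m₄ : l₄ ∈ F false) (m₅ : l₅ ∈ F false) (n₁ : l₁ ≠ 1) (n₂ : l₂ ≠ 1) (n₃ : l₃ ≠ 1)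
    (n₄ : l₄ ≠ 1) (n₅ : l₅ ≠ 1) (h0 : l₀ ∉ F true)
    (hor : (l₁ ∈ F true ∧ l₂ ∈ F true) ∨
      (l₁ ∈ F true ∧ l₂ ∉ F true ∧ ¬ (l₃ ∈ F true ∧ l₄ ∈ F true ∧ l₅ ∈ F true)) ∨
      (l₁ ∉ F true ∧ ¬ (l₂ ∈ F true ∧ l₃ ∈ F true ∧ l₄ ∈ F true) ∧
        ¬ (l₃ ∈ F true ∧ l₄ ∈ F true ∧ l₅ ∈ F true))) :
    l₀ * (e * l₁ * e⁻¹) * l₂ * (e * l₃ * e⁻¹) * l₄ * (e * l₅ * e⁻¹) ≠ 1 := by
  intro heq
  have he := h.mem
  have hi := h.inv.mem
  rcases hor with ⟨a1, a2⟩ | ⟨a1, a2, a3⟩ | ⟨a1, a2, a3⟩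
  · have hω : e * l₁ * e⁻¹ * l₂ * e ∈ F true :=
      mul_mem (mul_mem (mul_mem (mul_mem he a1) hi) a2) he
    by_cases a3 : l₃ ∈ F true
    · by_cases a4 : l₄ ∈ F true
      · by_cases a5 : l₅ ∈ F true
        · apply h0
          have h1 : e * l₁ * e⁻¹ * l₂ * e * l₃ * e⁻¹ * l₄ * e * l₅ * e⁻¹ ∈ F true :=
            mul_mem (mul_mem (mul_mem (mul_mem (mul_mem (mul_mem hω a3) hi) a4) he) a5) hi
          have h2 : l₀ * (e * l₁ * e⁻¹ * l₂ * e * l₃ * e⁻¹ * l₄ * e * l₅ * e⁻¹) = 1 := by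
            rw [← heq]
            group
          rw [eq_inv_of_mul_eq_one_left h2]
          exact inv_mem h1
        · apply close6 hF m₀ h0 (ω := e * l₁ * e⁻¹ * l₂ * e * l₃ * e⁻¹ * l₄ * e)
            (mul_mem (mul_mem (mul_mem (mul_mem hω a3) hi) a4) he) m₅ a5 (h.inv.r1 hmal)
          rw [← heq]
          group
      · obtain ⟨k, hr⟩ := h.r2 hmal m₅ n₅
        apply close6 hF m₀ h0 (ω := e * l₁ * e⁻¹ * l₂ * e * l₃ * e⁻¹)
          (mul_mem (mul_mem hω a3) hi) m₄ a4 hr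
        rw [← heq]
        group
    · obtain ⟨k, hr⟩ := h.r3 hmal m₄ n₄ m₅ n₅
      apply close6 hF m₀ h0 hω m₃ a3 hr
      rw [← heq]
      group
  · obtain ⟨k, hr⟩ := h.r4 hmal m₃ n₃ m₄ n₄ m₅ n₅ a3
    apply close6 hF m₀ h0 (ω := e * l₁ * e⁻¹) (mul_mem (mul_mem he a1) hi) m₂ a2 hr
    rw [← heq]
    group
  · obtain ⟨k, hr⟩ := h.r5 hmal m₂ n₂ m₃ n₃ m₄ n₄ m₅ n₅ a2 a3
    apply close6 hF m₀ h0 he m₁ a1 hr
    rw [← heq]
    group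

/-- Rotation of the relation. -/
theorem rot6 {e l₀ l₁ l₂ l₃ l₄ l₅ : Y}
    (h : l₀ * (e * l₁ * e⁻¹) * l₂ * (e * l₃ * e⁻¹) * l₄ * (e * l₅ * e⁻¹) = 1) :
    l₁ * (e⁻¹ * l₂ * e⁻¹⁻¹) * l₃ * (e⁻¹ * l₄ * e⁻¹⁻¹) * l₅ * (e⁻¹ * l₀ * e⁻¹⁻¹) = 1 := by
  have h1 : l₁ * (e⁻¹ * l₂ * e⁻¹⁻¹) * l₃ * (e⁻¹ * l₄ * e⁻¹⁻¹) * l₅ * (e⁻¹ * l₀ * e⁻¹⁻¹) =
      e⁻¹ * l₀⁻¹ * (l₀ * (e * l₁ * e⁻¹) * l₂ * (e * l₃ * e⁻¹) * l₄ * (e * l₅ * e⁻¹)) * l₀ * e := by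
    group
  rw [h1, h]
  group

theorem pattern6 : ∀ b₀ b₁ b₂ b₃ b₄ b₅ : Bool,
    (b₀ && b₁ && b₂ && b₃ && b₄ && b₅) = false →
    (let g := fun c₀ c₁ c₂ c₃ c₄ c₅ : Bool => !c₀ && ((c₁ && c₂) ||
      (c₁ && !c₂ && !(c₃ && c₄ && c₅)) || (!c₁ && !(c₂ && c₃ && c₄) && !(c₃ && c₄ && c₅)));
    (g b₀ b₁ b₂ b₃ b₄ b₅ || g b₁ b₂ b₃ b₄ b₅ b₀ || g b₂ b₃ b₄ b₅ b₀ b₁ ||
      g b₃ b₄ b₅ b₀ b₁ b₂ || g b₄ b₅ b₀ b₁ b₂ b₃ || g b₅ b₀ b₁ b₂ b₃ b₄) = true) := by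
  decide

end Pool.Agent.ABA.AM
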