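import Pool.Agent.Helper89_ABA.Defs
import Pool.Agent.Helper94_ABA.Amal

/-! # The amalgam lemma, first step: the subgroup `A` is enlarged (MP_d857f1_al, section 7) -/

set_option autoImplicit false

namespace Pool.Agent.ABA.AM

variable {Y : Type*} [Group Y]

/-- The geometric class inside the subgroup `X`. -/
structure GeoIn (X A B : Subgroup Y) : Prop where
  ab : ∀ x ∈ A, x ∈ B → x = 1
  aa : ∀ h ∈ X, ∀ x ∈ A, h * x * h⁻¹ ∈ A → x ≠ 1 → h ∈ A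
  bb : ∀ h ∈ X, ∀ x ∈ B, h * x * h⁻¹ ∈ B → x ≠ 1 → h ∈ B
  ab' : ∀ h ∈ X, ∀ x ∈ A, h * x * h⁻¹ ∈ B → x = 1
  e1 : ∀ x ∈ A, ∀ y ∈ B, ∀ x' ∈ A, ∀ y' ∈ B, x ≠ 1 → y ≠ 1 → x' ≠ 1 → y' ≠ 1 →
    x * y * x' * y' ≠ 1
  r3 : ∀ h₁ ∈ X, ∀ h₂ ∈ X, ∀ h₃ ∈ X, ∀ x₁ ∈ A, ∀ x₂ ∈ A, ∀ x₃ ∈ A,
    x₁ ≠ 1 → x₂ ≠ 1 → x₃ ≠ 1 → h₁⁻¹ * h₂ ∉ A → h₂⁻¹ * h₃ ∉ A → h₁⁻¹ * h₃ ∉ A →
    h₁ * x₁ * h₁⁻¹ * (h₂ * x₂ * h₂⁻¹) * (h₃ * x₃ * h₃⁻¹) ≠ 1
  t2 : ∀ h ∈ X, h * h = 1 → h = 1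
  e6 : ∀ h ∈ X, ¬ IsABA A B h → E6 A h
  el : ∀ k ∈ X, ∀ s ∈ A, ∀ t ∈ B, s ≠ 1 → t ≠ 1 → k * s * k⁻¹ * s ≠ t

theorem geoIn_of_geo {X A B : Subgroup Y} (hA : A ≤ X) (hB : B ≤ X)
    (hg : Geo (A.subgroupOf X) (B.subgroupOf X)) : GeoIn X A B := by
  have mk : ∀ {H : Subgroup Y} {x : Y} (hx : x ∈ X), x ∈ H →
      (⟨x, hx⟩ : X) ∈ H.subgroupOf X := by
    intro H x hx h
    rw [Subgroup.mem_subgroupOf]
    exact h
  have ne : ∀ {x : Y} (hx : x ∈ X), x ≠ 1 → (⟨x, hx⟩ : X) ≠ 1 := by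
    intro x hx h h'
    exact h (congrArg Subtype.val h')
  refine ⟨?_, ?_, ?_, ?_, ?_, ?_, ?_, ?_, ?_⟩
  · intro x hx hx'
    exact congrArg Subtype.val (hg.ab ⟨x, hA hx⟩ (mk (hA hx) hx) (mk _ hx'))
  · intro h hh x hx hx' hne
    exact hg.aa ⟨h, hh⟩ ⟨x, hA hx⟩ (mk _ hx) hx' (ne _ hne)
  · intro h hh x hx hx' hne
    exact hg.bb ⟨h, hh⟩ ⟨x, hB hx⟩ (mk _ hx) hx' (ne _ hne)
  · intro h hh x hx hx'
    exact congrArg Subtype.val (hg.ab' ⟨h, hh⟩ ⟨x, hA hx⟩ (mk _ hx) hx')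
  · intro x hx y hy x' hx' y' hy' n1 n2 n3 n4 h
    exact hg.e1 ⟨x, hA hx⟩ (mk _ hx) ⟨y, hB hy⟩ (mk _ hy) ⟨x', hA hx'⟩ (mk _ hx')
      ⟨y', hB hy'⟩ (mk _ hy') (ne _ n1) (ne _ n2) (ne _ n3) (ne _ n4) (Subtype.ext h)
  · intro h₁ m₁ h₂ m₂ h₃ m₃ x₁ a₁ x₂ a₂ x₃ a₃ n1 n2 n3 d1 d2 d3 h
    exact hg.r3 ⟨h₁, m₁⟩ ⟨h₂, m₂⟩ ⟨h₃, m₃⟩ ⟨x₁, hA a₁⟩ ⟨x₂, hA a₂⟩ ⟨x₃, hA a₃⟩ (mk _ a₁)
      (mk _ a₂) (mk _ a₃) (ne _ n1) (ne _ n2) (ne _ n3) d1 d2 d3 (Subtype.ext h)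
  · intro h hh h2
    exact congrArg Subtype.val (hg.t2 ⟨h, hh⟩ (Subtype.ext h2))
  · intro h hh hn x₁ a₁ y₁ b₁ x₂ a₂ y₂ b₂ x₃ a₃ y₃ b₃ n1 n2 n3 n4 n5 n6 hc
    refine hg.e6 ⟨h, hh⟩ ?_ ⟨x₁, hA a₁⟩ (mk _ a₁) ⟨y₁, hA b₁⟩ (mk _ b₁) ⟨x₂, hA a₂⟩ (mk _ a₂)
      ⟨y₂, hA b₂⟩ (mk _ b₂) ⟨x₃, hA a₃⟩ (mk _ a₃) ⟨y₃, hA b₃⟩ (mk _ b₃) (ne _ n1) (ne _ n2)
      (ne _ n3) (ne _ n4) (ne _ n5) (ne _ n6) (Subtype.ext hc)
    rintro ⟨x, hx, y, hy, z, hz, e⟩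
    exact hn ⟨x, hx, y, hy, z, hz, congrArg Subtype.val e⟩
  · intro k hk s hs t ht n1 n2 h
    exact hg.el ⟨k, hk⟩ ⟨s, hA hs⟩ (mk _ hs) ⟨t, hB ht⟩ (mk _ ht) (ne _ n1) (ne _ n2)
      (Subtype.ext h)

variable {F : Bool → Subgroup Y}

/-- Conjugates of the elements of `F false` when the intersection is malnormal in `F true`. -/
theorem conjM (hmal : ∀ x ∈ F true, x ∉ F false → ∀ c ∈ F true, c ∈ F false → c ≠ 1 →
      x * c * x⁻¹ ∉ F false) {n : ℕ} {s : Bool} {y m : Y} (h : RW F n s true y)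
    (hm : m ∈ F false) (hne : m ≠ 1) :
    ∃ k, RW F k s s (y * m * y⁻¹) ∧ ((2 ≤ n ∨ m ∉ F true) → 2 ≤ k) := by
  by_cases hX : m ∈ F true
  · obtain ⟨x, w, e, h1, h2, h3⟩ := h.inv.first
    have e2 : y = w⁻¹ * x⁻¹ := by rw [← mul_inv_rev, ← e, inv_inv]
    have h4 : x⁻¹ * m * x⁻¹⁻¹ ∉ F false :=
      hmal x⁻¹ (inv_mem h1) (fun h => h2 (inv_mem_iff.mp h)) m hX hm hne
    have h5 : x⁻¹ * m * x⁻¹⁻¹ ∈ F true :=
      mul_mem (mul_mem (inv_mem h1) hX) (inv_mem (inv_mem h1))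
    have e3 : y * m * y⁻¹ = w⁻¹ * (x⁻¹ * m * x⁻¹⁻¹) * w⁻¹⁻¹ := by
      rw [e2]
      group
    rcases h3 with ⟨h6, h7, h8⟩ | ⟨k, h6, h7⟩
    · refine ⟨1, ?_, ?_⟩
      · rw [e3, h7, ← h8]
        have := RW.one (F := F) true _ h5 h4
        simpa using this
      · rintro (h9 | h9)
        · omega
        · exact absurd hX h9
    · obtain ⟨k', h8, h9⟩ := h7.inv.conj (x := x⁻¹ * m * x⁻¹⁻¹) (by simpa using h5)
        (by simpa using h4)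
      refine ⟨k', ?_, fun _ => h8⟩
      rw [e3]
      exact h9
  · obtain ⟨k, h1, h2⟩ := h.conj (x := m) hm hX
    exact ⟨k, h2, fun _ => h1⟩

/-- A conjugate of a nontrivial element of `F false` by an element outside. -/
theorem conjM' (hF : Amal F) (hmal : ∀ x ∈ F true, x ∉ F false → ∀ c ∈ F true, c ∈ F false →
      c ≠ 1 → x * c * x⁻¹ ∉ F false) (hcomm : ∀ x ∈ F false, ∀ y ∈ F false, x * y = y * x)
    {y m : Y} (hy : y ∉ F false) (hm : m ∈ F false) (hne : m ≠ 1) :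
    ∃ z ∈ F false, y * m * y⁻¹ = y * z * m * (y * z)⁻¹ ∧ ∃ k s, RW F k s s (y * m * y⁻¹) ∧
      (2 ≤ k ∨ (k = 1 ∧ s = true ∧ m ∈ F true ∧ y * z ∈ F true ∧ y * z ∉ F false)) := by
  obtain ⟨z, hz, n, s, h⟩ := hF.strip_right hy
  have e : y * m * y⁻¹ = y * z * m * (y * z)⁻¹ := by
    have h1 : z * m = m * z := hcomm z hz m hm
    have h2 : y * z * m * (y * z)⁻¹ = y * (z * m * z⁻¹) * y⁻¹ := by group
    rw [h2, h1, mul_inv_cancel_right]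
  obtain ⟨k, h1, h2⟩ := conjM hmal h hm hne
  refine ⟨z, hz, e, k, s, ?_, ?_⟩
  · rw [e]
    exact h1
  · by_cases h3 : 2 ≤ k
    · exact Or.inl h3
    · right
      have h4 := h1.pos
      have hn := h.pos
      have h5 : ¬ (2 ≤ n ∨ m ∉ F true) := fun h => h3 (h2 h)
      push Not at h5
      have h6 : n = 1 := by omega
      subst h6
      obtain ⟨g1, g2, g3⟩ := h.one_iff
      have g1' : s = true := g1
      subst g1'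
      exact ⟨by omega, rfl, h5.2, g2, g3⟩

/-- R2 for `F false`. -/
theorem r2M (hF : Amal F) (hmal : ∀ x ∈ F true, x ∉ F false → ∀ c ∈ F true, c ∈ F false →
      c ≠ 1 → x * c * x⁻¹ ∉ F false) (hcomm : ∀ x ∈ F false, ∀ y ∈ F false, x * y = y * x) :
    R2 (F false) := by
  intro y m hm hym hne
  by_contra hy
  obtain ⟨z, hz, e, k, s, h, h2 | ⟨h3, h4, h5, h6, h7⟩⟩ := conjM' hF hmal hcomm hy hm hne
  · exact hF.not_mem h h2 false hym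
  · subst h4
    exact hF.not_mem_of_first h hym

/-- R2 for a subgroup `B` of `F true` none of whose elements is conjugate into `F false`. -/
theorem r2B (hF : Amal F) (B : Subgroup Y) (hB : B ≤ F true)
    (hbb : ∀ h ∈ F true, ∀ x ∈ B, h * x * h⁻¹ ∈ B → x ≠ 1 → h ∈ B)
    (hno : ∀ h ∈ F true, ∀ x ∈ B, x ≠ 1 → h * x * h⁻¹ ∉ F false) : R2 B := by
  intro y b hb hyb hne
  by_cases hy : y ∈ F true
  · exact hbb y hy b hb hyb hne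
  · exfalso
    obtain ⟨z, hz, n, s, h⟩ := hF.strip_right hy
    have h1 : z⁻¹ * b * z⁻¹⁻¹ ∉ F false := hno z⁻¹ (inv_mem hz) b hb hne
    have h2 : z⁻¹ * b * z⁻¹⁻¹ ∈ F true := mul_mem (mul_mem (inv_mem hz) (hB hb))
      (inv_mem (inv_mem hz))
    obtain ⟨k, h3, h4⟩ := h.conj (x := z⁻¹ * b * z⁻¹⁻¹) (by simpa using h2) (by simpa using h1)
    have e : y * z * (z⁻¹ * b * z⁻¹⁻¹) * (y * z)⁻¹ = y * b * y⁻¹ := by group
    rw [e] at h4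
    exact hF.not_mem h4 h3 true (hB hyb)

/-- R3 for `F false`, the first centre being the origin. -/
theorem r3M (hF : Amal F) (B : Subgroup Y)
    (hg : GeoIn (F true) (F true ⊓ F false) B)
    (hmal : ∀ x ∈ F true, x ∉ F false → ∀ c ∈ F true, c ∈ F false →
      c ≠ 1 → x * c * x⁻¹ ∉ F false) (hcomm : ∀ x ∈ F false, ∀ y ∈ F false, x * y = y * x)
    {n : ℕ} {u w x₁ x₂ x₃ : Y} (h₁ : x₁ ∈ F false) (h₂ : x₂ ∈ F false) (h₃ : x₃ ∈ F false)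
    (n₁ : x₁ ≠ 1) (n₂ : x₂ ≠ 1) (n₃ : x₃ ≠ 1) (hu : RW F n true true u) (hw : w ∉ F false)
    (huw : u⁻¹ * w ∉ F false) : x₁ * (u * x₂ * u⁻¹) ≠ w * x₃ * w⁻¹ := by
  intro heq
  obtain ⟨k, hk, hk2⟩ := conjM hmal hu h₂ n₂
  obtain ⟨z, hz, e, k', s', hk', hor⟩ := conjM' hF hmal hcomm hw h₃ n₃
  by_cases hx1 : x₁ ∈ F true
  · by_cases hcase : 2 ≤ n ∨ x₂ ∉ F true
    · obtain ⟨x, u', e1, g1, g2, g3⟩ := hu.first
      have hxi : x⁻¹ ∈ F true := inv_mem g1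
      have hxi' : x⁻¹ ∉ F false := fun h => g2 (inv_mem_iff.mp h)
      have hσ : ∃ k, RW F k false false (u' * x₂ * u'⁻¹) := by
        rcases g3 with ⟨a1, a2, a3⟩ | ⟨m, a1, a2⟩
        · rw [a2]
          refine ⟨1, ?_⟩
          have h5 : x₂ ∉ F true := by
            rcases hcase with h | h
            · omega
            · exact h
          have := RW.one (F := F) false x₂ h₂ h5
          simpa using this
        · obtain ⟨k2, b1, _⟩ := conjM hmal a2 h₂ n₂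
          exact ⟨k2, b1⟩
      obtain ⟨k2, hσ⟩ := hσ
      have h6 : x⁻¹ * x₁ * x⁻¹⁻¹ ∉ F false := hmal x⁻¹ hxi hxi' x₁ hx1 h₁ n₁
      have h7 : x⁻¹ * x₁ * x⁻¹⁻¹ ∈ F true := mul_mem (mul_mem hxi hx1) (inv_mem hxi)
      have h8 : RW F (1 + k2) true false (x⁻¹ * x₁ * x⁻¹⁻¹ * (u' * x₂ * u'⁻¹)) :=
        (RW.one true _ h7 h6).append' hσ rfl
      have e2 : x⁻¹ * x₁ * x⁻¹⁻¹ * (u' * x₂ * u'⁻¹) = x⁻¹ * w * x₃ * (x⁻¹ * w)⁻¹ := by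
        have e3 : x⁻¹ * x₁ * x⁻¹⁻¹ * (u' * x₂ * u'⁻¹) = x⁻¹ * (x₁ * (u * x₂ * u⁻¹)) * x := by
          rw [e1]
          group
        rw [e3, heq]
        group
      rw [e2] at h8
      have hk2p := hσ.pos
      by_cases h9 : x⁻¹ * w ∈ F false
      · exact hF.not_mem h8 (by omega) false (mul_mem (mul_mem h9 h₃) (inv_mem h9))
      · obtain ⟨_, _, _, k3, s3, h10, _⟩ := conjM' hF hmal hcomm h9 h₃ n₃
        obtain ⟨h11, h12⟩ := hF.unique h8 h10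
        rw [← h12] at h11
        exact absurd h11 (by decide)
    · push Not at hcase
      have hn := hu.pos
      have hn1 : n = 1 := by omega
      subst hn1
      obtain ⟨_, u1, u2⟩ := hu.one_iff
      have hgX : x₁ * (u * x₂ * u⁻¹) ∈ F true :=
        mul_mem hx1 (mul_mem (mul_mem u1 hcase.2) (inv_mem u1))
      rcases hor with h5 | ⟨_, _, h6, h7, h8⟩
      · rw [heq] at hgX
        exact hF.not_mem hk' h5 true hgX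
      · have huz : u⁻¹ * (w * z) ∉ F false := by
          intro h
          apply huw
          rw [← mul_assoc] at h
          exact mem_mul_right hz h
        refine hg.r3 1 (one_mem _) u u1 (w * z) h7 x₁ ⟨hx1, h₁⟩ x₂ ⟨hcase.2, h₂⟩ x₃⁻¹
          (Subgroup.mem_inf.mpr ⟨inv_mem h6, inv_mem h₃⟩) n₁ n₂ (inv_ne_one.mpr n₃) ?_ ?_ ?_ ?_
        · rintro ⟨_, h⟩
          rw [inv_one, one_mul] at h
          exact u2 h
        · rintro ⟨_, h⟩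
          exact huz h
        · rintro ⟨_, h⟩
          rw [inv_one, one_mul] at h
          exact h8 h
        · have e5 : w * z * x₃⁻¹ * (w * z)⁻¹ = (w * x₃ * w⁻¹)⁻¹ := by
            rw [e]
            group
          rw [e5, ← heq]
          group
  · have h4 : RW F (1 + k) false true (x₁ * (u * x₂ * u⁻¹)) :=
      (RW.one false _ h₁ hx1).append' hk rfl
    rw [heq] at h4
    obtain ⟨h5, h6⟩ := hF.unique h4 hk'
    rw [← h6] at h5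
    exact absurd h5 (by decide)

end Pool.Agent.ABA.AM
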