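import Pool.Agent.Helper94_ABA.E6

/-! # The amalgam lemma, first step: conclusion (MP_d857f1_al, section 7) -/

set_option autoImplicit false

namespace Pool.Agent.ABA.AM

variable {Y : Type*} [Group Y] {F : Bool → Subgroup Y}

/-- E6 for a good element of `F true`. -/
theorem Good6.e6M (hF : Amal F) (hmal : ∀ x ∈ F true, x ∉ F false → ∀ c ∈ F true, c ∈ F false →
      c ≠ 1 → x * c * x⁻¹ ∉ F false) {e : Y} (h : Good6 F e) : E6 (F false) e := by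
  intro l₀ m₀ l₁ m₁ l₂ m₂ l₃ m₃ l₄ m₄ l₅ m₅ n₀ n₁ n₂ n₃ n₄ n₅ q₀
  classical
  have hi := h.inv
  have hii : Good6 F e⁻¹⁻¹ := by rw [inv_inv]; exact h
  have q₁ := rot6 q₀
  have q₂ := rot6 q₁
  have q₃ := rot6 q₂
  have q₄ := rot6 q₃
  have q₅ := rot6 q₄
  rw [inv_inv] at q₂ q₃ q₄ q₅
  rw [inv_inv] at q₄ q₅
  by_cases hall : l₀ ∈ F true ∧ l₁ ∈ F true ∧ l₂ ∈ F true ∧ l₃ ∈ F true ∧ l₄ ∈ F true ∧
      l₅ ∈ F true
  · obtain ⟨a₀, a₁, a₂, a₃, a₄, a₅⟩ := hall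
    exact h.e6 l₀ ⟨a₀, m₀⟩ l₁ ⟨a₁, m₁⟩ l₂ ⟨a₂, m₂⟩ l₃ ⟨a₃, m₃⟩ l₄ ⟨a₄, m₄⟩ l₅ ⟨a₅, m₅⟩
      n₀ n₁ n₂ n₃ n₄ n₅ q₀
  · have key : ∀ (f c₀ c₁ c₂ c₃ c₄ c₅ : Y), Good6 F f → c₀ ∈ F false → c₁ ∈ F false →
        c₂ ∈ F false → c₃ ∈ F false → c₄ ∈ F false → c₅ ∈ F false → c₁ ≠ 1 → c₂ ≠ 1 →
        c₃ ≠ 1 → c₄ ≠ 1 → c₅ ≠ 1 →
        c₀ * (f * c₁ * f⁻¹) * c₂ * (f * c₃ * f⁻¹) * c₄ * (f * c₅ * f⁻¹) = 1 →
        (!(decide (c₀ ∈ F true)) && ((decide (c₁ ∈ F true) && decide (c₂ ∈ F true)) ||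
          (decide (c₁ ∈ F true) && !(decide (c₂ ∈ F true)) &&
            !(decide (c₃ ∈ F true) && decide (c₄ ∈ F true) && decide (c₅ ∈ F true))) ||
          (!(decide (c₁ ∈ F true)) &&
            !(decide (c₂ ∈ F true) && decide (c₃ ∈ F true) && decide (c₄ ∈ F true)) &&
            !(decide (c₃ ∈ F true) && decide (c₄ ∈ F true) && decide (c₅ ∈ F true))))) = true →
        False := by
      intro f c₀ c₁ c₂ c₃ c₄ c₅ hf g₀ g₁ g₂ g₃ g₄ g₅ k₁ k₂ k₃ k₄ k₅ hq hb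
      simp only [Bool.and_eq_true, Bool.or_eq_true, Bool.not_eq_true', decide_eq_true_eq,
        decide_eq_false_iff_not, Bool.and_eq_false_iff] at hb
      refine core6 hF hmal hf g₀ g₁ g₂ g₃ g₄ g₅ k₁ k₂ k₃ k₄ k₅ hb.1 ?_ hq
      have aux : ∀ {p q r : Prop}, ((¬ p ∨ ¬ q) ∨ ¬ r) → ¬ (p ∧ q ∧ r) := by
        rintro p q r ((h | h) | h) ⟨a, b, c⟩
        · exact h a
        · exact h b
        · exact h c
      rcases hb.2 with (h1 | ⟨⟨h1, h2⟩, h3⟩) | ⟨⟨h1, h2⟩, h3⟩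
      · exact Or.inl h1
      · exact Or.inr (Or.inl ⟨h1, h2, aux h3⟩)
      · exact Or.inr (Or.inr ⟨h1, aux h2, aux h3⟩)
    have hp := pattern6 (decide (l₀ ∈ F true)) (decide (l₁ ∈ F true)) (decide (l₂ ∈ F true))
      (decide (l₃ ∈ F true)) (decide (l₄ ∈ F true)) (decide (l₅ ∈ F true)) (by
        by_contra hc
        apply hall
        simp only [Bool.not_eq_false, Bool.and_eq_true, decide_eq_true_eq] at hc
        exact ⟨hc.1.1.1.1.1, hc.1.1.1.1.2, hc.1.1.1.2, hc.1.1.2, hc.1.2, hc.2⟩)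
    simp only [Bool.or_eq_true] at hp
    rcases hp with ((((hp | hp) | hp) | hp) | hp) | hp
    · exact key e l₀ l₁ l₂ l₃ l₄ l₅ h m₀ m₁ m₂ m₃ m₄ m₅ n₁ n₂ n₃ n₄ n₅ q₀
        (by simpa only [Bool.or_eq_true] using hp)
    · exact key e⁻¹ l₁ l₂ l₃ l₄ l₅ l₀ hi m₁ m₂ m₃ m₄ m₅ m₀ n₂ n₃ n₄ n₅ n₀ q₁
        (by simpa only [Bool.or_eq_true] using hp)
    · exact key e l₂ l₃ l₄ l₅ l₀ l₁ h m₂ m₃ m₄ m₅ m₀ m₁ n₃ n₄ n₅ n₀ n₁ q₂
        (by simpa only [Bool.or_eq_true] using hp)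
    · exact key e⁻¹ l₃ l₄ l₅ l₀ l₁ l₂ hi m₃ m₄ m₅ m₀ m₁ m₂ n₄ n₅ n₀ n₁ n₂ q₃
        (by simpa only [Bool.or_eq_true] using hp)
    · exact key e l₄ l₅ l₀ l₁ l₂ l₃ h m₄ m₅ m₀ m₁ m₂ m₃ n₅ n₀ n₁ n₂ n₃ q₄
        (by simpa only [Bool.or_eq_true] using hp)
    · exact key e⁻¹ l₅ l₀ l₁ l₂ l₃ l₄ hi m₅ m₀ m₁ m₂ m₃ m₄ n₀ n₁ n₂ n₃ n₄ q₅
        (by simpa only [Bool.or_eq_true] using hp)

/-- E4 follows from malnormality, R3 and T2. -/
theorem e4_of_geoIn {X C B : Subgroup Y} (hCX : C ≤ X) (hg : GeoIn X C B)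
    (hcomm : ∀ x ∈ C, ∀ y ∈ C, x * y = y * x) {h t t' : Y} (hX : h ∈ X) (hC : h ∉ C)
    (ht : t ∈ C) (ht' : t' ∈ C) (n : t ≠ 1) (n' : t' ≠ 1) : h * t * h⁻¹ * t' * h ∉ C := by
  intro hc
  obtain ⟨c, e0⟩ : ∃ c, c = h * t * h⁻¹ * t' * h := ⟨_, rfl⟩
  rw [← e0] at hc
  -- f = c h⁻¹
  obtain ⟨f, ef⟩ : ∃ f, f = c * h⁻¹ := ⟨_, rfl⟩
  have eh : h = f⁻¹ * c := by rw [ef]; group
  have hfC : f ∉ C := by
    intro hf
    apply hC
    rw [eh]
    exact mul_mem (inv_mem hf) hc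
  have hfX : f ∈ X := by
    rw [ef]
    exact mul_mem (hCX hc) (inv_mem hX)
  have htc : t * c = c * t := hcomm t ht c hc
  have key : f * f = t * f * t' := by
    -- c = h t h⁻¹ t' h with h = f⁻¹ c
    have h1 : c = f⁻¹ * (c * t * c⁻¹) * f * t' * (f⁻¹ * c) := by
      have h2 : f⁻¹ * (c * t * c⁻¹) * f * t' * (f⁻¹ * c) = h * t * h⁻¹ * t' * h := by
        rw [eh]
        group
      rw [h2]
      exact e0
    rw [← htc, mul_inv_cancel_right] at h1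
    have h3 : (1 : Y) = f⁻¹ * t * f * t' * f⁻¹ := by
      have h4 : f⁻¹ * t * f * t' * (f⁻¹ * c) * c⁻¹ = f⁻¹ * t * f * t' * f⁻¹ := by group
      rw [← h4, ← h1]
      group
    have h5 : f * (f⁻¹ * t * f * t' * f⁻¹) * f = t * f * t' := by group
    rw [← h5, ← h3]
    group
  by_cases hne : t = t'
  · subst hne
    have a1 : (f * t * f) * t * (f * t * f)⁻¹ = t := by
      have a2 : (f * t * f) * t = t * (f * t * f) := by
        have a3 : (f * t * f) * t = f * (t * f * t) := by group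
        have a4 : t * (f * t * f) = (t * f * t) * f := by group
        rw [a3, a4, ← key]
        group
      rw [a2, mul_inv_cancel_right]
    have a5 : f * t * f ∈ C := by
      apply hg.aa _ (mul_mem (mul_mem hfX (hCX ht)) hfX) t ht _ n
      rw [a1]
      exact ht
    have a6 : f * f * f = (f * t * f) * t := by
      have a3 : (f * t * f) * t = f * (t * f * t) := by group
      rw [a3, ← key]
      group
    have a7 : f * f * f ∈ C := by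
      rw [a6]
      exact mul_mem a5 ht
    by_cases a8 : f * f * f = 1
    · have a9 : (f * t) * (f * t) = 1 := by
        rw [← a8, a6]
        group
      have a10 := hg.t2 _ (mul_mem hfX (hCX ht)) a9
      apply hfC
      have a11 : f = t⁻¹ := eq_inv_of_mul_eq_one_left a10
      rw [a11]
      exact inv_mem ht
    · apply hfC
      apply hg.aa f hfX _ a7 _ a8
      have a12 : f * (f * f * f) * f⁻¹ = f * f * f := by group
      rw [a12]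
      exact a7
  · have b0 : t * t'⁻¹ ≠ 1 := by
      intro h1
      exact hne (mul_inv_eq_one.mp h1)
    have b1 : f⁻¹ * t⁻¹ * f⁻¹⁻¹ * ((t * f) * t' * (t * f)⁻¹) * (1 * (t * t'⁻¹) * 1⁻¹) = 1 := by
      have b2 : f⁻¹ * t⁻¹ * f⁻¹⁻¹ * ((t * f) * t' * (t * f)⁻¹) * (1 * (t * t'⁻¹) * 1⁻¹) =
          f⁻¹ * t⁻¹ * f * (t * f * t') * f⁻¹ * t'⁻¹ := by group
      rw [b2, ← key]
      have b3 : f⁻¹ * t⁻¹ * f * (f * f) * f⁻¹ * t'⁻¹ = f⁻¹ * t⁻¹ * (f * f) * t'⁻¹ := by group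
      rw [b3, key]
      group
    refine hg.r3 f⁻¹ (inv_mem hfX) (t * f) (mul_mem (hCX ht) hfX) 1 (one_mem _) t⁻¹
      (inv_mem ht) t' ht' (t * t'⁻¹) (mul_mem ht (inv_mem ht')) (inv_ne_one.mpr n) n' b0
      ?_ ?_ ?_ b1
    · intro b4
      rw [inv_inv] at b4
      -- f (t f) =: j ∈ C
      obtain ⟨j, ej⟩ : ∃ j, j = f * (t * f) := ⟨_, rfl⟩
      rw [← ej] at b4
      have b5 : t * f = f⁻¹ * j := by rw [ej]; group
      have b6 : j * t' = t' * j := hcomm j b4 t' ht'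
      rw [b5] at b1
      have b7 : f⁻¹ * t⁻¹ * f⁻¹⁻¹ * (f⁻¹ * j * t' * (f⁻¹ * j)⁻¹) * (1 * (t * t'⁻¹) * 1⁻¹) =
          f⁻¹ * t⁻¹ * (j * t') * j⁻¹ * f * (t * t'⁻¹) := by group
      rw [b7, b6] at b1
      have b8 : f⁻¹ * t⁻¹ * (t' * j) * j⁻¹ * f * (t * t'⁻¹) =
          (f⁻¹ * (t⁻¹ * t') * f⁻¹⁻¹) * (t * t'⁻¹) := by group
      rw [b8] at b1
      have b9 : f⁻¹ * (t⁻¹ * t') * f⁻¹⁻¹ ∈ C := by
        rw [eq_inv_of_mul_eq_one_left b1]
        exact inv_mem (mul_mem ht (inv_mem ht'))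
      have b10 := hg.aa f⁻¹ (inv_mem hfX) _ (mul_mem (inv_mem ht) ht') b9 (by
        intro h1
        exact hne (inv_mul_eq_one.mp h1))
      exact hfC (inv_mem_iff.mp b10)
    · intro b4
      rw [mul_one, inv_mem_iff] at b4
      exact hfC (mem_mul_left ht b4)
    · intro b4
      rw [mul_one, inv_inv] at b4
      exact hfC b4

/-- E6 for an element whose normal form starts and ends with a letter of `F true`. -/
theorem e6M_of_rw (hF : Amal F) (B : Subgroup Y)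
    (hg : GeoIn (F true) (F true ⊓ F false) B)
    (hcomm : ∀ x ∈ F false, ∀ y ∈ F false, x * y = y * x)
    (hmal : ∀ x ∈ F true, x ∉ F false → ∀ c ∈ F true, c ∈ F false →
      c ≠ 1 → x * c * x⁻¹ ∉ F false) {n : ℕ} {h : Y} (hr : RW F n true true h)
    (hn : ¬ IsABA (F false) B h) : E6 (F false) h := by
  obtain ⟨x, u, e1, g1, g2, ⟨a1, a2, _⟩ | ⟨m, a1, a2⟩⟩ := hr.first
  · -- `h` is a letter
    rw [a2, mul_one] at e1
    have comm' : ∀ x ∈ F true ⊓ F false, ∀ y ∈ F true ⊓ F false, x * y = y * x :=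
      fun x hx y hy => hcomm x (Subgroup.mem_inf.mp hx).2 y (Subgroup.mem_inf.mp hy).2
    have hCX : F true ⊓ F false ≤ F true := inf_le_left
    have e4 : ∀ h ∈ F true, h ∉ F false → ∀ t ∈ F true, t ∈ F false → ∀ t' ∈ F true,
        t' ∈ F false → t ≠ 1 → t' ≠ 1 → h * t * h⁻¹ * t' * h ∉ F false := by
      intro h hX hM t t1 t2 t' t1' t2' n1 n2 hc
      refine e4_of_geoIn hCX hg comm' hX (fun hC => hM (Subgroup.mem_inf.mp hC).2)
        (Subgroup.mem_inf.mpr ⟨t1, t2⟩) (Subgroup.mem_inf.mpr ⟨t1', t2'⟩) n1 n2 ?_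
      exact Subgroup.mem_inf.mpr ⟨mul_mem (mul_mem (mul_mem (mul_mem hX t1) (inv_mem hX)) t1')
        hX, hc⟩
    have aba : ∀ y, ¬ IsABA (F false) B y → ¬ IsABA (F true ⊓ F false) B y := by
      rintro y hy ⟨p, hp, q, hq, r, hr, e⟩
      exact hy ⟨p, (Subgroup.mem_inf.mp hp).2, q, hq, r, (Subgroup.mem_inf.mp hr).2, e⟩
    have hni : ¬ IsABA (F false) B h⁻¹ := by
      rintro ⟨p, hp, q, hq, r, hr, e⟩
      apply hn
      refine ⟨r⁻¹, inv_mem hr, q⁻¹, inv_mem hq, p⁻¹, inv_mem hp, ?_⟩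
      rw [← inv_inv h, e]
      group
    have hhX : h ∈ F true := by rw [e1]; exact g1
    have hhM : h ∉ F false := by rw [e1]; exact g2
    refine Good6.e6M hF hmal ⟨hhX, hhM, ?_, ?_, hg.e6 h hhX (aba h hn),
      hg.e6 h⁻¹ (inv_mem hhX) (aba _ hni)⟩
    · intro t t1 t2 t' t1' t2' n1 n2
      have h1 := e4 h⁻¹ (inv_mem hhX) (fun h => hhM (inv_mem_iff.mp h)) t t1 t2 t' t1' t2' n1 n2
      rwa [inv_inv] at h1
    · exact e4 h hhX hhM
  · -- `h = x u`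
    have hxi : x⁻¹ ∈ F true := inv_mem g1
    have hxi' : x⁻¹ ∉ F false := fun h => g2 (inv_mem_iff.mp h)
    have p1 : ∀ y ∈ F false, y ≠ 1 → ∃ k, RW F k true true (x⁻¹ * y * x) := by
      intro y hy hne
      obtain ⟨k, h1, _⟩ := conjM hmal (RW.one true x⁻¹ hxi hxi') hy hne
      rw [inv_inv] at h1
      exact ⟨k, h1⟩
    have p2 : ∀ y ∈ F false, y ≠ 1 → ∃ k, RW F k false false (u * y * u⁻¹) := by
      intro y hy hne
      obtain ⟨k, h1, _⟩ := conjM hmal a2 hy hne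
      exact ⟨k, h1⟩
    intro l₀ m₀ l₁ m₁ l₂ m₂ l₃ m₃ l₄ m₄ l₅ m₅ n₀ n₁ n₂ n₃ n₄ n₅ q₀
    obtain ⟨k₀, r₀⟩ := p1 l₀ m₀ n₀
    obtain ⟨k₁, r₁⟩ := p2 l₁ m₁ n₁
    obtain ⟨k₂, r₂⟩ := p1 l₂ m₂ n₂
    obtain ⟨k₃, r₃⟩ := p2 l₃ m₃ n₃
    obtain ⟨k₄, r₄⟩ := p1 l₄ m₄ n₄
    obtain ⟨k₅, r₅⟩ := p2 l₅ m₅ n₅
    have r := ((((r₀.append' r₁ rfl).append' r₂ rfl).append' r₃ rfl).append' r₄ rfl).append' r₅
      rfl
    apply hF.ne_one _ _ _ _ r
    have e2 : x⁻¹ * l₀ * x * (u * l₁ * u⁻¹) * (x⁻¹ * l₂ * x) * (u * l₃ * u⁻¹) *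
        (x⁻¹ * l₄ * x) * (u * l₅ * u⁻¹) = x⁻¹ * (l₀ * (h * l₁ * h⁻¹) * l₂ * (h * l₃ * h⁻¹) *
          l₄ * (h * l₅ * h⁻¹)) * x := by
      rw [e1]
      group
    rw [e2, q₀]
    group

/-- **Step 1 of the amalgam lemma**: enlarging `A`. -/
theorem step1 (hF : Amal F) (B : Subgroup Y) (hB : B ≤ F true)
    (hcomm : ∀ x ∈ F false, ∀ y ∈ F false, x * y = y * x)
    (htf : ∀ x ∈ F false, x * x = 1 → x = 1)
    (hg : GeoIn (F true) (F true ⊓ F false) B) : Geo (F false) B := by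
  have hmal : ∀ x ∈ F true, x ∉ F false → ∀ c ∈ F true, c ∈ F false →
      c ≠ 1 → x * c * x⁻¹ ∉ F false := by
    intro x hx hx' c hc hc' hne h
    have h1 := hg.aa x hx c (Subgroup.mem_inf.mpr ⟨hc, hc'⟩)
      (Subgroup.mem_inf.mpr ⟨mul_mem (mul_mem hx hc) (inv_mem hx), h⟩) hne
    exact hx' (Subgroup.mem_inf.mp h1).2
  have hBM : ∀ b ∈ B, b ∈ F false → b = 1 := fun b hb hb' =>
    hg.ab b (Subgroup.mem_inf.mpr ⟨hB hb, hb'⟩) hb
  have hno : ∀ h ∈ F true, ∀ x ∈ B, x ≠ 1 → h * x * h⁻¹ ∉ F false := by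
    intro h hh x hx hne hc
    apply hne
    have h1 := hg.ab' h⁻¹ (inv_mem hh) (h * x * h⁻¹)
      (Subgroup.mem_inf.mpr ⟨mul_mem (mul_mem hh (hB hx)) (inv_mem hh), hc⟩) (by
        have : h⁻¹ * (h * x * h⁻¹) * h⁻¹⁻¹ = x := by group
        rw [this]
        exact hx)
    have h2 : x = h⁻¹ * (h * x * h⁻¹) * h := by group
    rw [h2, h1]
    group
  refine ⟨?_, r2M hF hmal hcomm, r2B hF B hB hg.bb hno, ?_, ?_, ?_, ?_, ?_, ?_⟩
  · intro x hx hx'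
    exact hBM x hx' hx
  · -- AB'
    intro h x hx hxB
    by_contra hne
    by_cases hh : h ∈ F false
    · have h1 : h * x * h⁻¹ = x := by rw [hcomm h hh x hx, mul_inv_cancel_right]
      rw [h1] at hxB
      exact hne (hBM x hxB hx)
    · obtain ⟨z, hz, e, k, s, h1, h2 | ⟨_, _, h3, h4, h5⟩⟩ :=
        conjM' hF hmal hcomm hh hx hne
      · exact hF.not_mem h1 h2 true (hB hxB)
      · rw [e] at hxB
        exact hne (hg.ab' _ h4 x (Subgroup.mem_inf.mpr ⟨h3, hx⟩) hxB)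
  · -- E1
    intro x hx y hy x' hx' y' hy' n1 n2 n3 n4 h
    have hyX := hB hy
    have hyX' := hB hy'
    have hyM : y ∉ F false := fun h => n2 (hBM y hy h)
    have hyM' : y' ∉ F false := fun h => n4 (hBM y' hy' h)
    by_cases a1 : x ∈ F true
    · have a2 : x' ∈ F true := by
        have h1 : x' = (x * y)⁻¹ * (x * y * x' * y') * y'⁻¹ := by group
        rw [h1, h, mul_one]
        exact mul_mem (inv_mem (mul_mem a1 hyX)) (inv_mem hyX')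
      exact hg.e1 x (Subgroup.mem_inf.mpr ⟨a1, hx⟩) y hy x' (Subgroup.mem_inf.mpr ⟨a2, hx'⟩)
        y' hy' n1 n2 n3 n4 h
    · by_cases a2 : x' ∈ F true
      · apply a1
        have h1 : x = (x * y * x' * y') * (y * x' * y')⁻¹ := by group
        rw [h1, h, one_mul]
        exact inv_mem (mul_mem (mul_mem hyX a2) hyX')
      · have r := (((RW.one (F := F) false x hx a1).append' (RW.one true y hyX hyM) rfl).append'
          (RW.one false x' hx' a2) rfl).append' (RW.one true y' hyX' hyM') rfl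
        exact hF.ne_one _ _ _ _ r h
  · -- R3
    intro h₁ h₂ h₃ x₁ x₂ x₃ m₁ m₂ m₃ n₁ n₂ n₃ d₁ d₂ d₃ h
    obtain ⟨z, hz, z', hz', n, hr⟩ := hF.strip d₁
    have c1 : z * x₁ = x₁ * z := hcomm z hz x₁ m₁
    have c2 : z' * x₂ = x₂ * z' := hcomm z' hz' x₂ m₂
    refine r3M hF B hg hmal hcomm (w := z * (h₁⁻¹ * h₃)) m₁ m₂ (inv_mem m₃) n₁ n₂
      (inv_ne_one.mpr n₃) hr ?_ ?_ ?_
    · intro h1
      exact d₃ (mem_mul_left hz h1)
    · intro h1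
      apply d₂
      have h2 : (z * (h₁⁻¹ * h₂) * z')⁻¹ * (z * (h₁⁻¹ * h₃)) = z'⁻¹ * (h₂⁻¹ * h₃) := by group
      rw [h2] at h1
      exact mem_mul_left (inv_mem hz') h1
    · have h4 : z * (h₁⁻¹ * h₂) * z' * x₂ * (z * (h₁⁻¹ * h₂) * z')⁻¹ =
          z * (h₁⁻¹ * h₂) * (z' * x₂) * z'⁻¹ * (h₁⁻¹ * h₂)⁻¹ * z⁻¹ := by group
      rw [h4, c2]
      have h5 : x₁ * (z * (h₁⁻¹ * h₂) * (x₂ * z') * z'⁻¹ * (h₁⁻¹ * h₂)⁻¹ * z⁻¹) =
          (x₁ * z) * (h₁⁻¹ * h₂) * x₂ * (h₁⁻¹ * h₂)⁻¹ * z⁻¹ := by group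
      rw [h5, ← c1]
      have h6 : h₁ * x₁ * h₁⁻¹ * (h₂ * x₂ * h₂⁻¹) = (h₃ * x₃ * h₃⁻¹)⁻¹ :=
        eq_inv_of_mul_eq_one_left h
      have h7 : z * x₁ * (h₁⁻¹ * h₂) * x₂ * (h₁⁻¹ * h₂)⁻¹ * z⁻¹ =
          z * h₁⁻¹ * (h₁ * x₁ * h₁⁻¹ * (h₂ * x₂ * h₂⁻¹)) * h₁ * z⁻¹ := by group
      rw [h7, h6]
      group
  · -- T2
    intro h hh
    apply hF.t2 _ h hh
    intro b x hx hxx
    cases b
    · exact htf x hx hxx
    · exact hg.t2 x hx hxx
  · -- E6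
    intro h hn
    have hhM : h ∉ F false := fun hh => hn ⟨h, hh, 1, one_mem _, 1, one_mem _, by group⟩
    obtain ⟨z, hz, z', hz', n, hr⟩ := hF.strip hhM
    have hn' : ¬ IsABA (F false) B (z * h * z') := by
      rintro ⟨p, hp, q, hq, r, hr, e⟩
      apply hn
      refine ⟨z⁻¹ * p, mul_mem (inv_mem hz) hp, q, hq, r * z'⁻¹, mul_mem hr (inv_mem hz'), ?_⟩
      have h1 : h = z⁻¹ * (z * h * z') * z'⁻¹ := by group
      rw [h1, e]
      group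
    have h6 := e6M_of_rw hF B hg hcomm hmal hr hn'
    intro l₀ m₀ l₁ m₁ l₂ m₂ l₃ m₃ l₄ m₄ l₅ m₅ n₀ n₁ n₂ n₃ n₄ n₅ q₀
    apply h6 l₀ m₀ l₁ m₁ l₂ m₂ l₃ m₃ l₄ m₄ l₅ m₅ n₀ n₁ n₂ n₃ n₄ n₅
    have t1 : ∀ y ∈ F false, z * h * z' * y * (z * h * z')⁻¹ = z * (h * y * h⁻¹) * z⁻¹ := by
      intro y hy
      have h1 : z * h * z' * y * (z * h * z')⁻¹ = z * h * (z' * y) * z'⁻¹ * h⁻¹ * z⁻¹ := by group
      rw [h1, hcomm z' hz' y hy]
      group
    have t2 : ∀ y ∈ F false, y = z * y * z⁻¹ := by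
      intro y hy
      rw [hcomm z hz y hy, mul_inv_cancel_right]
    rw [t1 l₁ m₁, t1 l₃ m₃, t1 l₅ m₅]
    have h2 : l₀ * (z * (h * l₁ * h⁻¹) * z⁻¹) * l₂ * (z * (h * l₃ * h⁻¹) * z⁻¹) * l₄ *
        (z * (h * l₅ * h⁻¹) * z⁻¹) = (z * l₀ * z⁻¹) * (z * (h * l₁ * h⁻¹) * z⁻¹) *
          (z * l₂ * z⁻¹) * (z * (h * l₃ * h⁻¹) * z⁻¹) * (z * l₄ * z⁻¹) *
        (z * (h * l₅ * h⁻¹) * z⁻¹) := by
      rw [← t2 l₀ m₀, ← t2 l₂ m₂, ← t2 l₄ m₄]
    rw [h2]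
    have h3 : (z * l₀ * z⁻¹) * (z * (h * l₁ * h⁻¹) * z⁻¹) *
          (z * l₂ * z⁻¹) * (z * (h * l₃ * h⁻¹) * z⁻¹) * (z * l₄ * z⁻¹) *
        (z * (h * l₅ * h⁻¹) * z⁻¹) = z * (l₀ * (h * l₁ * h⁻¹) * l₂ * (h * l₃ * h⁻¹) * l₄ *
          (h * l₅ * h⁻¹)) * z⁻¹ := by group
    rw [h3, q₀]
    group
  · -- EL
    intro k s hs t ht n1 n2 heq
    have htX := hB ht
    have htM : t ∉ F false := fun h => n2 (hBM t ht h)
    by_cases hk : k ∈ F false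
    · apply htM
      rw [← heq]
      exact mul_mem (mul_mem (mul_mem hk hs) (inv_mem hk)) hs
    · obtain ⟨z, hz, z', hz', n, hr⟩ := hF.strip hk
      obtain ⟨r, h1, h2⟩ := conjM hmal hr hs n1
      have e1 : z * k * z' * s * (z * k * z')⁻¹ * s = z * t * z⁻¹ := by
        have e2 : z * k * z' * s * (z * k * z')⁻¹ * s =
            z * k * (z' * s) * z'⁻¹ * k⁻¹ * z⁻¹ * s := by group
        have e3 : z⁻¹ * s = s * z⁻¹ := hcomm z⁻¹ (inv_mem hz) s hs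
        rw [e2, hcomm z' hz' s hs, ← heq]
        have e4 : z * k * (s * z') * z'⁻¹ * k⁻¹ * z⁻¹ * s = z * k * s * k⁻¹ * (z⁻¹ * s) := by
          group
        rw [e4, e3]
        group
      have hpos := h1.pos
      have hz3 : z ∈ F true ∨ RW F 3 false false (z * t * z⁻¹) := by
        by_cases hzX : z ∈ F true
        · exact Or.inl hzX
        · right
          exact ((RW.one (F := F) false z hz hzX).append' (RW.one true t htX htM) rfl).append'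
            (RW.one false z⁻¹ (inv_mem hz) (fun h => hzX (inv_mem_iff.mp h))) rfl
      by_cases hsX : s ∈ F true
      · have h3 : RW F r true true (z * t * z⁻¹) := by
          rw [← e1]
          exact h1.mul_right hsX hs
        rcases hz3 with hzX | h4
        · by_cases hr2 : 2 ≤ r
          · exact hF.not_mem h3 hr2 true (mul_mem (mul_mem hzX htX) (inv_mem hzX))
          · have hn : ¬ 2 ≤ n := fun h => hr2 (h2 (Or.inl h))
            have hn1 := hr.pos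
            have hn2 : n = 1 := by omega
            subst hn2
            obtain ⟨_, g2, g3⟩ := hr.one_iff
            have g2' : z * k * z' ∈ F true := g2
            refine hg.el (z⁻¹ * (z * k * z')) (mul_mem (inv_mem hzX) g2') s
              (Subgroup.mem_inf.mpr ⟨hsX, hs⟩) t ht n1 n2 ?_
            have e5 : z⁻¹ * (z * k * z') * s * (z⁻¹ * (z * k * z'))⁻¹ * s =
                z⁻¹ * (z * k * z' * s * (z * k * z')⁻¹ * (z * s)) := by group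
            rw [e5, hcomm z hz s hs, ← mul_assoc (z * k * z' * s * (z * k * z')⁻¹), e1]
            group
        · obtain ⟨a1, _⟩ := hF.unique h3 h4
          exact absurd a1 (by decide)
      · have h3 : RW F (r + 1) true false (z * t * z⁻¹) := by
          rw [← e1]
          exact h1.append' (RW.one false s hs hsX) rfl
        rcases hz3 with hzX | h4
        · exact hF.not_mem h3 (by omega) true (mul_mem (mul_mem hzX htX) (inv_mem hzX))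
        · obtain ⟨a1, _⟩ := hF.unique h3 h4
          exact absurd a1 (by decide)

end Pool.Agent.ABA.AM
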