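import Pool.Agent.Helper94_ABA.Step1b

/-! # The amalgam lemma, second step: the subgroup `B` is enlarged (MP_d857f1_al, section 7) -/

set_option autoImplicit false

namespace Pool.Agent.ABA.AM

variable {Y : Type*} [Group Y] {F : Bool → Subgroup Y}

/-- Conjugates of elements of `F true` not conjugate into `F false` by elements outside. -/
theorem conjX (hF : Amal F) {y x : Y} (hy : y ∉ F true) (hx : x ∈ F true)
    (hno : ∀ h ∈ F true, h * x * h⁻¹ ∉ F false) : ∃ k s, 2 ≤ k ∧ RW F k s s (y * x * y⁻¹) := by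
  obtain ⟨z, hz, n, s, h⟩ := hF.strip_right hy
  have h1 : z⁻¹ * x * z⁻¹⁻¹ ∉ F false := hno z⁻¹ (inv_mem hz)
  have h2 : z⁻¹ * x * z⁻¹⁻¹ ∈ F true := mul_mem (mul_mem (inv_mem hz) hx) (inv_mem (inv_mem hz))
  obtain ⟨k, h3, h4⟩ := h.conj (x := z⁻¹ * x * z⁻¹⁻¹) (by simpa using h2) (by simpa using h1)
  have e : y * z * (z⁻¹ * x * z⁻¹⁻¹) * (y * z)⁻¹ = y * x * y⁻¹ := by group
  rw [e] at h4
  exact ⟨k, s, h3, h4⟩

/-- **Step 2 of the amalgam lemma**: enlarging `B`. -/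
theorem step2 (hF : Amal F) (A : Subgroup Y) (hA : A ≤ F true)
    (hcomm : ∀ x ∈ F false, ∀ y ∈ F false, x * y = y * x)
    (htf : ∀ x ∈ F false, x * x = 1 → x = 1)
    (hg : GeoIn (F true) A (F true ⊓ F false)) : Geo A (F false) := by
  have hmal : ∀ x ∈ F true, x ∉ F false → ∀ c ∈ F true, c ∈ F false →
      c ≠ 1 → x * c * x⁻¹ ∉ F false := by
    intro x hx hx' c hc hc' hne h
    have h1 := hg.bb x hx c (Subgroup.mem_inf.mpr ⟨hc, hc'⟩)
      (Subgroup.mem_inf.mpr ⟨mul_mem (mul_mem hx hc) (inv_mem hx), h⟩) hne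
    exact hx' (Subgroup.mem_inf.mp h1).2
  have hno : ∀ h ∈ F true, ∀ x ∈ A, x ≠ 1 → h * x * h⁻¹ ∉ F false := by
    intro h hh x hx hne hc
    exact hne (hg.ab' h hh x hx
      (Subgroup.mem_inf.mpr ⟨mul_mem (mul_mem hh (hA hx)) (inv_mem hh), hc⟩))
  have hAM : ∀ x ∈ A, x ∈ F false → x = 1 := fun x hx hx' =>
    hg.ab x hx (Subgroup.mem_inf.mpr ⟨hA hx, hx'⟩)
  have hcX : ∀ {y x : Y}, y ∉ F true → x ∈ A → x ≠ 1 → ∃ k s, 2 ≤ k ∧
      RW F k s s (y * x * y⁻¹) := fun hy hx hne =>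
    conjX hF hy (hA hx) (fun h hh => hno h hh _ hx hne)
  refine ⟨hAM, r2B hF A hA hg.aa hno, r2M hF hmal hcomm, ?_, ?_, ?_, ?_, ?_, ?_⟩
  · -- AB'
    intro h x hx hxB
    by_contra hne
    by_cases hh : h ∈ F true
    · exact hno h hh x hx hne hxB
    · obtain ⟨k, s, h1, h2⟩ := hcX hh hx hne
      exact hF.not_mem h2 h1 false hxB
  · -- E1
    intro x hx y hy x' hx' y' hy' n1 n2 n3 n4 h
    have hxX := hA hx
    have hxX' := hA hx'
    have hxM : x ∉ F false := fun h => n1 (hAM x hx h)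
    have hxM' : x' ∉ F false := fun h => n3 (hAM x' hx' h)
    by_cases a1 : y ∈ F true
    · have a2 : y' ∈ F true := by
        have h1 : y' = (x * y * x')⁻¹ * (x * y * x' * y') := by group
        rw [h1, h, mul_one]
        exact inv_mem (mul_mem (mul_mem hxX a1) hxX')
      exact hg.e1 x hx y (Subgroup.mem_inf.mpr ⟨a1, hy⟩) x' hx' y'
        (Subgroup.mem_inf.mpr ⟨a2, hy'⟩) n1 n2 n3 n4 h
    · by_cases a2 : y' ∈ F true
      · apply a1
        have h1 : y = x⁻¹ * (x * y * x' * y') * (x' * y')⁻¹ := by group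
        rw [h1, h, mul_one]
        exact mul_mem (inv_mem hxX) (inv_mem (mul_mem hxX' a2))
      · have r := (((RW.one (F := F) true x hxX hxM).append' (RW.one false y hy a1) rfl).append'
          (RW.one true x' hxX' hxM') rfl).append' (RW.one false y' hy' a2) rfl
        exact hF.ne_one _ _ _ _ r h
  · -- R3
    intro h₁ h₂ h₃ x₁ x₂ x₃ m₁ m₂ m₃ n₁ n₂ n₃ d₁ d₂ d₃ h
    have heq : x₁ * ((h₁⁻¹ * h₂) * x₂ * (h₁⁻¹ * h₂)⁻¹) =
        (h₁⁻¹ * h₃) * x₃⁻¹ * (h₁⁻¹ * h₃)⁻¹ := by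
      have h6 : h₁ * x₁ * h₁⁻¹ * (h₂ * x₂ * h₂⁻¹) = (h₃ * x₃ * h₃⁻¹)⁻¹ :=
        eq_inv_of_mul_eq_one_left h
      have h7 : x₁ * ((h₁⁻¹ * h₂) * x₂ * (h₁⁻¹ * h₂)⁻¹) =
          h₁⁻¹ * (h₁ * x₁ * h₁⁻¹ * (h₂ * x₂ * h₂⁻¹)) * h₁ := by group
      rw [h7, h6]
      group
    obtain ⟨u, eu⟩ : ∃ u, u = h₁⁻¹ * h₂ := ⟨_, rfl⟩
    obtain ⟨w, ew⟩ : ∃ w, w = h₁⁻¹ * h₃ := ⟨_, rfl⟩
    have duw : u⁻¹ * w ∉ A := by
      have : u⁻¹ * w = h₂⁻¹ * h₃ := by rw [eu, ew]; group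
      rw [this]
      exact d₂
    rw [← eu, ← ew] at heq
    rw [← eu] at d₁
    rw [← ew] at d₃
    have m₃' : x₃⁻¹ ∈ A := inv_mem m₃
    have n₃' : x₃⁻¹ ≠ 1 := inv_ne_one.mpr n₃
    by_cases hu : u ∈ F true
    · have h8 : x₁ * (u * x₂ * u⁻¹) ∈ F true :=
        mul_mem (hA m₁) (mul_mem (mul_mem hu (hA m₂)) (inv_mem hu))
      have hw : w ∈ F true := by
        by_contra hw
        obtain ⟨k, s, h1, h2⟩ := hcX hw m₃' n₃'
        rw [heq] at h8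
        exact hF.not_mem h2 h1 true h8
      refine hg.r3 1 (one_mem _) u hu w hw x₁ m₁ x₂ m₂ x₃ m₃ n₁ n₂ n₃ ?_ duw ?_ ?_
      · rw [inv_one, one_mul]
        exact d₁
      · rw [inv_one, one_mul]
        exact d₃
      · have h9 : 1 * x₁ * 1⁻¹ * (u * x₂ * u⁻¹) * (w * x₃ * w⁻¹) =
            x₁ * (u * x₂ * u⁻¹) * (w * x₃ * w⁻¹) := by group
        rw [h9, heq]
        group
    · obtain ⟨z, hz, z', hz', n, hr⟩ := hF.strip hu
      have hx2 : z'⁻¹ * x₂ * z'⁻¹⁻¹ ∈ F true :=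
        mul_mem (mul_mem (inv_mem hz') (hA m₂)) (inv_mem (inv_mem hz'))
      have hx2' : z'⁻¹ * x₂ * z'⁻¹⁻¹ ∉ F false := hno _ (inv_mem hz') x₂ m₂ n₂
      obtain ⟨k, hk, hρ⟩ := hr.conj (x := z'⁻¹ * x₂ * z'⁻¹⁻¹) (by simpa using hx2)
        (by simpa using hx2')
      have hx1 : RW F 1 true true (z * x₁ * z⁻¹) := RW.one true _
        (mul_mem (mul_mem hz (hA m₁)) (inv_mem hz)) (hno z hz x₁ m₁ n₁)
      have hL := hx1.append' hρ rfl
      have e1 : z * x₁ * z⁻¹ * (z * u * z' * (z'⁻¹ * x₂ * z'⁻¹⁻¹) * (z * u * z')⁻¹) =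
          z * w * x₃⁻¹ * (z * w)⁻¹ := by
        have e2 : z * x₁ * z⁻¹ * (z * u * z' * (z'⁻¹ * x₂ * z'⁻¹⁻¹) * (z * u * z')⁻¹) =
            z * (x₁ * (u * x₂ * u⁻¹)) * z⁻¹ := by group
        rw [e2, heq]
        group
      rw [e1] at hL
      by_cases hzw : z * w ∈ F true
      · exact hF.not_mem hL (by omega) true
          (mul_mem (mul_mem hzw (hA m₃')) (inv_mem hzw))
      · obtain ⟨k', s, h1, h2⟩ := hcX hzw m₃' n₃'
        obtain ⟨a1, a2⟩ := hF.unique hL h2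
        rw [← a2] at a1
        exact absurd a1 (by decide)
  · -- T2
    intro h hh
    apply hF.t2 _ h hh
    intro b x hx hxx
    cases b
    · exact htf x hx hxx
    · exact hg.t2 x hx hxx
  · -- E6
    intro h hn
    by_cases hh : h ∈ F true
    · apply hg.e6 h hh
      rintro ⟨p, hp, q, hq, r, hr, e⟩
      exact hn ⟨p, hp, q, (Subgroup.mem_inf.mp hq).2, r, hr, e⟩
    · obtain ⟨z, hz, z', hz', n, hr⟩ := hF.strip hh
      intro l₀ m₀ l₁ m₁ l₂ m₂ l₃ m₃ l₄ m₄ l₅ m₅ n₀ n₁ n₂ n₃ n₄ n₅ q₀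
      have p1 : ∀ y ∈ A, y ≠ 1 → RW F 1 true true (z * y * z⁻¹) := fun y hy hne =>
        RW.one true _ (mul_mem (mul_mem hz (hA hy)) (inv_mem hz)) (hno z hz y hy hne)
      have p2 : ∀ y ∈ A, y ≠ 1 → ∃ k, RW F k false false (z * (h * y * h⁻¹) * z⁻¹) := by
        intro y hy hne
        have h2 : z'⁻¹ * y * z'⁻¹⁻¹ ∈ F true :=
          mul_mem (mul_mem (inv_mem hz') (hA hy)) (inv_mem (inv_mem hz'))
        obtain ⟨k, _, h3⟩ := hr.conj (x := z'⁻¹ * y * z'⁻¹⁻¹) (by simpa using h2)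
          (by simpa using hno _ (inv_mem hz') y hy hne)
        refine ⟨k, ?_⟩
        have e1 : z * (h * y * h⁻¹) * z⁻¹ =
            z * h * z' * (z'⁻¹ * y * z'⁻¹⁻¹) * (z * h * z')⁻¹ := by group
        rw [e1]
        exact h3
      obtain ⟨k₁, r₁⟩ := p2 l₁ m₁ n₁
      obtain ⟨k₃, r₃⟩ := p2 l₃ m₃ n₃
      obtain ⟨k₅, r₅⟩ := p2 l₅ m₅ n₅
      have r := (((((p1 l₀ m₀ n₀).append' r₁ rfl).append' (p1 l₂ m₂ n₂) rfl).append' r₃
        rfl).append' (p1 l₄ m₄ n₄) rfl).append' r₅ rfl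
      apply hF.ne_one _ _ _ _ r
      have e2 : z * l₀ * z⁻¹ * (z * (h * l₁ * h⁻¹) * z⁻¹) * (z * l₂ * z⁻¹) *
          (z * (h * l₃ * h⁻¹) * z⁻¹) * (z * l₄ * z⁻¹) * (z * (h * l₅ * h⁻¹) * z⁻¹) =
          z * (l₀ * (h * l₁ * h⁻¹) * l₂ * (h * l₃ * h⁻¹) * l₄ * (h * l₅ * h⁻¹)) * z⁻¹ := by
        group
      rw [e2, q₀]
      group
  · -- EL
    intro k s hs t ht n1 n2 heq
    by_cases hk : k ∈ F true
    · have h1 : t ∈ F true := by
        rw [← heq]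
        exact mul_mem (mul_mem (mul_mem hk (hA hs)) (inv_mem hk)) (hA hs)
      exact hg.el k hk s hs t (Subgroup.mem_inf.mpr ⟨h1, ht⟩) n1 n2 heq
    · obtain ⟨z, hz, z', hz', n, hr⟩ := hF.strip hk
      have h2 : z'⁻¹ * s * z'⁻¹⁻¹ ∈ F true :=
        mul_mem (mul_mem (inv_mem hz') (hA hs)) (inv_mem (inv_mem hz'))
      obtain ⟨r, hr2, h3⟩ := hr.conj (x := z'⁻¹ * s * z'⁻¹⁻¹) (by simpa using h2)
        (by simpa using hno _ (inv_mem hz') s hs n1)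
      have h4 : RW F 1 true true (z * s * z⁻¹) := RW.one true _
        (mul_mem (mul_mem hz (hA hs)) (inv_mem hz)) (hno z hz s hs n1)
      have h5 : RW F (r + 1) false true (z * t * z⁻¹) := by
        have h6 := h3.append' h4 rfl
        have e1 : z * k * z' * (z'⁻¹ * s * z'⁻¹⁻¹) * (z * k * z')⁻¹ * (z * s * z⁻¹) =
            z * (k * s * k⁻¹ * s) * z⁻¹ := by group
        rw [e1, heq] at h6
        exact h6
      by_cases hzM : z ∈ F false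
      · exact hF.not_mem h5 (by omega) false (mul_mem (mul_mem hzM ht) (inv_mem hzM))
      · by_cases htX : t ∈ F true
        · exact hF.not_mem h5 (by omega) true (mul_mem (mul_mem hz htX) (inv_mem hz))
        · have h7 := ((RW.one (F := F) true z hz hzM).append'
            (RW.one false t ht htX) rfl).append'
            (RW.one true z⁻¹ (inv_mem hz) (fun h => hzM (inv_mem_iff.mp h))) rfl
          obtain ⟨a1, _⟩ := hF.unique h5 h7
          exact absurd a1 (by decide)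

end Pool.Agent.ABA.AM
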